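import Pool.Agent.H2.MU.U
import Pool.Agent.H2.WE.Ctr

/-!
# [H2 MU] Uniform version of H2/WE/Ctr at a single scale

The proofs are those of `H2/WE/Ctr.lean` (helper86) with `mrtU` instead of `mrt`.
-/

namespace Pool.H2.WE

open Finset Pool.H2.MR

/-- condition (N) at the single scale `N`, with the constant `A` -/
def NA (A N : ℕ) (f : ℕ → ℂ) : Prop :=
  ∀ (r : ℕ) (χ : DirichletCharacter ℂ r), 0 < r → r ≤ A → ∀ t : ℝ, |t| ≤ N →
      (A : ℝ) ≤ ∑ p ∈ (Icc 1 N).filter Nat.Prime,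
        (1 - (f p * starRingEnd ℂ (χ (p : ZMod r) * (p : ℂ) ^ (Complex.I * (t : ℂ)))).re) / (p : ℝ)

theorem NA_mono {A A' N : ℕ} {f : ℕ → ℂ} (h : NA A' N f) (hA : A ≤ A') : NA A N f := fun r χ hr hrA t ht =>
  (show (A : ℝ) ≤ A' by exact_mod_cast hA).trans (h r χ hr (hrA.trans hA) t ht)

theorem chr_UN (f : ℕ → ℂ) (A N K : ℕ) (hN : NA A N f) (hK : 1 ≤ K) (hKA : K ≤ A) (χ : DirichletCharacter ℂ K) :
    UN A N (fun n => f n * χ (n : ZMod K)) := by
  have : NeZero K := ⟨by omega⟩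
  intro t ht
  have h1 := hN K χ⁻¹ hK hKA t ht
  refine h1.trans (le_of_eq ?_)
  unfold DD
  refine Finset.sum_congr rfl fun p _ => ?_
  have h3 : (starRingEnd ℂ) (χ⁻¹ (p : ZMod K)) = χ (p : ZMod K) := by
    rw [← MulChar.star_eq_inv, MulChar.star_apply]
    exact star_star _
  have h4 : (starRingEnd ℂ) ((p : ℂ) ^ (Complex.I * (t : ℂ))) = ni t p := by
    unfold ni
    have h5 : (p : ℂ).arg ≠ Real.pi := by
      rw [Complex.natCast_arg]
      exact Real.pi_pos.ne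
    have h6 := Complex.conj_cpow (p : ℂ) (-((t : ℂ) * Complex.I)) h5
    rw [Complex.conj_natCast] at h6
    rw [h6]
    congr 2
    simp [mul_comm]
  rw [map_mul, h3, h4, mul_assoc]

theorem ctrN (K : ℕ) (hK : 1 ≤ K) : ∃ (ρ : ℝ) (A : ℕ), 0 < ρ ∧ ∀ N : ℕ, A ≤ N → ∀ f : ℕ → ℂ, OB f → NA A N f →
    (ex N (fun n => ‖dir (f (n + (K : ℤ)).toNat) - dir (f n.toNat)‖ ≤ ρ) : ℝ) ≤ ρ * N →
      (ex N (fun n => 1 / 2 ≤ ‖f n.toNat‖) : ℝ) ≤ ρ * N → False := by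
  classical
  have hKr : (1 : ℝ) ≤ K := by exact_mod_cast hK
  obtain ⟨H₀, hH₀⟩ := mrtU (1 / (16 * (K : ℝ) ^ 2)) (by positivity)
  obtain ⟨H, hH⟩ : ∃ H, H = H₀ + 1 := ⟨_, rfl⟩
  have hHr : (1 : ℝ) ≤ H := by
    have : 1 ≤ H := by omega
    exact_mod_cast this
  obtain ⟨ρ, hρ⟩ : ∃ ρ : ℝ, ρ = 1 / (64 * (K : ℝ) ^ 2 * H) := ⟨_, rfl⟩
  have hρ0 : 0 < ρ := by rw [hρ]; positivity
  have hρH : H * ρ = 1 / (64 * (K : ℝ) ^ 2) := by
    rw [hρ]
    field_simp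
  have hρ4 : H * ρ ≤ 1 / 4 := by
    rw [hρH, div_le_div_iff₀ (by positivity) (by norm_num)]
    nlinarith
  have hHK : H₀ ≤ H * K := by
    have : H * 1 ≤ H * K := Nat.mul_le_mul_left H hK
    omega
  obtain ⟨A', N₀, hmr⟩ := hH₀ (H * K) hHK
  obtain ⟨A, hA⟩ : ∃ A : ℕ, A = ⌈A'⌉₊ + K + N₀ + (8 * H ^ 2 * K ^ 2 + 1) := ⟨_, rfl⟩
  refine ⟨ρ, A, hρ0, ?_⟩
  intro N hNN f hf hN e1 e2
  have hAA : A' ≤ A := by
    refine (Nat.le_ceil A').trans ?_
    exact_mod_cast (by omega : ⌈A'⌉₊ ≤ A)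
  have hNχ : ∀ χ : DirichletCharacter ℂ K,
      ∑ n ∈ Icc 1 N, ‖∑ j ∈ range (H * K), f (n + j) * χ ((n + j : ℕ) : ZMod K)‖ ≤ 1 / (16 * (K : ℝ) ^ 2) * (H * K : ℕ) * N := by
    intro χ
    exact hmr N (by omega) (fun n => f n * χ (n : ZMod K)) (chr_ob f hf K χ)
      (fun t ht => hAA.trans (chr_UN f A N K hN hK (by omega) χ t ht))
  have hN2 : 8 * H ^ 2 * K ^ 2 + 1 ≤ N := by omega
  have hN3 : 8 * (H : ℝ) ^ 2 * K ^ 2 ≤ N := by
    have : 8 * H ^ 2 * K ^ 2 ≤ N := by omega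
    exact_mod_cast this
  have hNr : (1 : ℝ) ≤ N := by
    have : 1 ≤ N := by omega
    exact_mod_cast this
  have hup := ctr_up K H N hK f (1 / (16 * (K : ℝ) ^ 2) * (H * K : ℕ) * N) hNχ
  -- the exceptions
  obtain ⟨Q, hQ⟩ : ∃ Q : ℤ → Prop, Q = fun n => ‖dir (f (n + (K : ℤ)).toNat) - dir (f n.toNat)‖ ≤ ρ := ⟨_, rfl⟩
  obtain ⟨R, hR⟩ : ∃ R : ℤ → Prop, R = fun n => 1 / 2 ≤ ‖f n.toNat‖ := ⟨_, rfl⟩
  obtain ⟨P, hP⟩ : ∃ P : ℕ → Prop, P = fun n => ∀ j ∈ range H, ‖dir (f (n + (j + 1) * K)) - dir (f (n + j * K))‖ ≤ ρ ∧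
    1 / 2 ≤ ‖f (n + j * K)‖ := ⟨_, rfl⟩
  have hex : (((Icc 1 N).filter (fun n => ¬ P n)).card : ℝ) ≤ 2 * H * (ρ * N + H * K) := by
    have h1 := ex_nat N P
    rw [← h1]
    have h2 : ex N (fun n => P n.toNat) ≤ ex N (fun n => ∀ j ∈ range H, Q (n + (j * K : ℕ)) ∧ R (n + (j * K : ℕ))) := by
      apply ex_mono
      intro n hn1 _ h3
      rw [hP]
      intro j hj
      obtain ⟨h4, h5⟩ := h3 j hj
      rw [hQ] at h4
      rw [hR] at h5
      have h6 : (n + (j * K : ℕ)).toNat = n.toNat + j * K := by omega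
      have h7 : (n + (j * K : ℕ) + (K : ℤ)).toNat = n.toNat + (j + 1) * K := by
        have h8 : (j + 1) * K = j * K + K := by ring
        rw [h8]
        omega
      rw [h6, h7] at h4
      rw [h6] at h5
      exact ⟨h4, h5⟩
    have h3 := ex_all (range H) N (fun j n => Q (n + (j * K : ℕ)) ∧ R (n + (j * K : ℕ)))
    have h4 : ∀ j ∈ range H, ((ex N (fun n => Q (n + (j * K : ℕ)) ∧ R (n + (j * K : ℕ))) : ℕ) : ℝ) ≤ 2 * (ρ * N + H * K) := by
      intro j hj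
      rw [Finset.mem_range] at hj
      have h5 := ex_and N (fun n => Q (n + (j * K : ℕ))) (fun n => R (n + (j * K : ℕ)))
      have h6 := ex_shift N Q (j * K : ℕ)
      have h7 := ex_shift N R (j * K : ℕ)
      rw [Int.natAbs_natCast] at h6 h7
      have h8 : (ex N Q : ℝ) ≤ ρ * N := by
        rw [hQ]
        exact e1
      have h9 : (ex N R : ℝ) ≤ ρ * N := by
        rw [hR]
        exact e2
      have h10 : (ex N (fun n => Q (n + (j * K : ℕ)) ∧ R (n + (j * K : ℕ))) : ℝ) ≤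
          (ex N Q + j * K) + (ex N R + j * K) := by
        exact_mod_cast h5.trans (add_le_add h6 h7)
      have h11 : (j : ℝ) * K ≤ H * K := mul_le_mul_of_nonneg_right (by exact_mod_cast hj.le) (by linarith)
      linarith
    have h5 : (ex N (fun n => P n.toNat) : ℝ) ≤ ∑ j ∈ range H, ((ex N (fun n => Q (n + (j * K : ℕ)) ∧ R (n + (j * K : ℕ))) : ℕ) : ℝ) := by
      exact_mod_cast h2.trans h3
    refine h5.trans ((Finset.sum_le_sum h4).trans (le_of_eq ?_))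
    rw [Finset.sum_const, Finset.card_range, nsmul_eq_mul]
    ring
  -- the lower bound
  have hlow : 3 / 8 * (H : ℝ) * ((N : ℝ) / K - 2 * H * (ρ * N + H * K)) ≤
      ∑ n ∈ (Icc 1 N).filter (fun n => n % K = 1 % K), ‖∑ j ∈ range H, f (n + j * K)‖ := by
    have h1 := ctr_cnt K N hK (by omega)
    have h2 : ((Icc 1 N).filter (fun n => n % K = 1 % K)).card ≤
        (((Icc 1 N).filter (fun n => n % K = 1 % K)).filter P).card + ((Icc 1 N).filter (fun n => ¬ P n)).card := by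
      rw [← Finset.card_filter_add_card_filter_not (s := (Icc 1 N).filter (fun n => n % K = 1 % K)) P]
      apply Nat.add_le_add_left
      apply Finset.card_le_card
      intro n hn
      rw [Finset.mem_filter, Finset.mem_filter] at hn
      rw [Finset.mem_filter]
      exact ⟨hn.1.1, hn.2⟩
    have h3 : (((Icc 1 N).filter (fun n => n % K = 1 % K)).card : ℝ) ≤
        ((((Icc 1 N).filter (fun n => n % K = 1 % K)).filter P).card : ℝ) + (((Icc 1 N).filter (fun n => ¬ P n)).card : ℝ) := by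
      exact_mod_cast h2
    have h4 : ∑ n ∈ ((Icc 1 N).filter (fun n => n % K = 1 % K)).filter P, 3 / 8 * (H : ℝ) ≤
        ∑ n ∈ ((Icc 1 N).filter (fun n => n % K = 1 % K)).filter P, ‖∑ j ∈ range H, f (n + j * K)‖ := by
      apply Finset.sum_le_sum
      intro n hn
      have h5 := (Finset.mem_filter.1 hn).2
      rw [hP] at h5
      exact ctr_low H (fun j => f (n + j * K)) ρ hρ0.le hρ4 (fun j hj => (h5 j hj).1) (fun j hj => (h5 j hj).2)
    rw [Finset.sum_const, nsmul_eq_mul] at h4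
    have h5 := Finset.sum_le_sum_of_subset_of_nonneg
      (Finset.filter_subset P ((Icc 1 N).filter (fun n => n % K = 1 % K)))
      (fun n _ _ => norm_nonneg (∑ j ∈ range H, f (n + j * K)))
    have h6 : (N : ℝ) / K - 2 * H * (ρ * N + H * K) ≤ ((((Icc 1 N).filter (fun n => n % K = 1 % K)).filter P).card : ℝ) := by
      linarith
    have h7 := mul_le_mul_of_nonneg_left h6 (show (0 : ℝ) ≤ 3 / 8 * H by positivity)
    linarith
  have hcmp := hlow.trans hup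
  -- comparison
  obtain ⟨y, hy⟩ : ∃ y : ℝ, y = (N : ℝ) / K := ⟨_, rfl⟩
  have hy0 : 0 < y := by
    rw [hy]
    positivity
  have k1 : 1 / (16 * (K : ℝ) ^ 2) * (H * K : ℕ) * N = H * y / 16 := by
    rw [hy]
    push_cast
    field_simp
  have k2 : 2 * (H : ℝ) * (ρ * N + H * K) ≤ y / 32 + y / 4 := by
    have k3 : 2 * (H : ℝ) * (ρ * N + H * K) = 2 * (H * ρ) * N + 2 * H ^ 2 * K := by ring
    rw [k3, hρH]
    have k4 : 2 * (1 / (64 * (K : ℝ) ^ 2)) * N ≤ y / 32 := by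
      rw [hy, div_div]
      have k5 : 2 * (1 / (64 * (K : ℝ) ^ 2)) * N = N / (32 * K ^ 2) := by
        field_simp
        norm_num
      rw [k5]
      apply div_le_div_of_nonneg_left (by linarith) (by positivity)
      nlinarith
    have k6 : 2 * (H : ℝ) ^ 2 * K ≤ y / 4 := by
      rw [hy, div_div, le_div_iff₀ (by positivity)]
      nlinarith
    linarith
  rw [k1, ← hy] at hcmp
  have k7 : 3 / 8 * (H : ℝ) * (y / 2) ≤ 3 / 8 * (H : ℝ) * (y - 2 * H * (ρ * N + H * K)) := by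
    apply mul_le_mul_of_nonneg_left _ (by positivity)
    linarith
  have k8 : 0 < (H : ℝ) * y := by positivity
  linarith

theorem ctrUN (M : ℕ) : ∃ (ρ : ℝ) (A : ℕ), 0 < ρ ∧ ∀ N : ℕ, A ≤ N → ∀ f : ℕ → ℂ, OB f → NA A N f → ∀ K : ℕ, 1 ≤ K → K ≤ M →
    (ex N (fun n => ‖dir (f (n + (K : ℤ)).toNat) - dir (f n.toNat)‖ ≤ ρ) : ℝ) ≤ ρ * N →
      (ex N (fun n => 1 / 2 ≤ ‖f n.toNat‖) : ℝ) ≤ ρ * N → False := by
  induction M with
  | zero => exact ⟨1, 0, one_pos, fun N _ f _ _ K hK hKM => absurd hKM (by omega)⟩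
  | succ M ih =>
    obtain ⟨ρ1, A1, hρ1, h1⟩ := ih
    obtain ⟨ρ2, A2, hρ2, h2⟩ := ctrN (M + 1) (by omega)
    refine ⟨min ρ1 ρ2, max A1 A2, lt_min hρ1 hρ2, ?_⟩
    intro N hNN f hf hN K hK hKM e1 e2
    have m1 : min ρ1 ρ2 ≤ ρ1 := min_le_left _ _
    have m2 : min ρ1 ρ2 ≤ ρ2 := min_le_right _ _
    have hNn : (0 : ℝ) ≤ N := Nat.cast_nonneg _
    have m3 : min ρ1 ρ2 * N ≤ ρ1 * N := mul_le_mul_of_nonneg_right m1 hNn
    have m4 : min ρ1 ρ2 * N ≤ ρ2 * N := mul_le_mul_of_nonneg_right m2 hNn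
    rcases Nat.lt_or_ge K (M + 1) with h | h
    · refine h1 N ((le_max_left _ _).trans hNN) f hf (NA_mono hN (le_max_left _ _)) K hK (by omega) ?_ (e2.trans m3)
      refine le_trans ?_ (e1.trans m3)
      exact_mod_cast ex_mono (fun n _ _ hn => le_trans hn m1)
    · have hKe : K = M + 1 := by omega
      subst hKe
      refine h2 N ((le_max_right _ _).trans hNN) f hf (NA_mono hN (le_max_right _ _)) ?_ (e2.trans m4)
      refine le_trans ?_ (e1.trans m4)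
      exact_mod_cast ex_mono (fun n _ _ hn => le_trans hn m2)

end Pool.H2.WE
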