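import Pool.Agent.H2.MU.Ctr
import Pool.Agent.H2.WE.Fi1

/-!
# [H2 MU] Uniform version of H2/WE/Fi1 at a single scale (proof of helper38 with `ctrUN`)
-/

namespace Pool.H2.WE

open Finset Pool.H2.MR

theorem fi1N (h : Fin 2 → ℕ) (hh : h 1 ≠ h 0) : ∃ (δ : ℝ) (A : ℕ), 0 < δ ∧
    ∀ N : ℕ, A ≤ N → ∀ f : ℕ → ℂ, OB f → NA A N f →
      ∀ g : Fin 2 → ℕ → ℂ, (∀ i, OB (g i)) → g 0 = f → ‖∑ n ∈ Icc 1 N, ∏ i, g i (n + h i)‖ ≤ (1 - δ) * N := by
  classical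
  obtain ⟨c, P1, hc, hP1, hpos⟩ := pos 1
  obtain ⟨D, P1', hD, hsm⟩ := sm1 c hc
  set Mh := h 0 + h 1 + 1 with hMh
  have hhM : ∀ i, h i ≤ Mh := by
    intro i
    fin_cases i
    · simp only [hMh, Fin.zero_eta]
      omega
    · simp only [hMh, Fin.mk_one]
      omega
  obtain ⟨ρ, A2, hρ, hctr⟩ := ctrUN (2 * D * Mh)
  set η : ℝ := min (ρ / 128) (1 / 8) with hηd
  have hη : 0 < η := lt_min (by positivity) (by norm_num)
  have hη1 : η ≤ ρ / 128 := min_le_left _ _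
  have hη2 : η ≤ 1 / 8 := min_le_right _ _
  set ε : ℝ := min (ρ / 4000) (1 / 4000) with hεd
  have hε : 0 < ε := lt_min (by positivity) (by norm_num)
  have hε1 : ε ≤ ρ / 4000 := min_le_left _ _
  have hε2 : ε ≤ 1 / 4000 := min_le_right _ _
  obtain ⟨Pm, N0, δ0, hδ0, hedc⟩ := edc 1 h ε η hε (by linarith) hη (max P1 (max P1' 1))
  set δ : ℝ := min (1 / 2) (η ^ 2 / 8 * min δ0 ε) with hδd
  have hmin : 0 < min δ0 ε := lt_min hδ0 hε
  have hδ : 0 < δ := lt_min (by norm_num) (by positivity)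
  have hδ1 : 8 * δ / η ^ 2 ≤ min δ0 ε := by
    rw [div_le_iff₀ (by positivity)]
    have : δ ≤ η ^ 2 / 8 * min δ0 ε := min_le_right _ _
    linarith
  obtain ⟨N3, hN3⟩ := exists_nat_ge (2 * (2600 * Pm * Mh + 100 * (D * Mh) + 100) : ℝ)
  obtain ⟨N4, hN4⟩ := exists_nat_ge (2 * (52 * Pm * Mh + 3 * (D * Mh) + Mh) / ρ : ℝ)
  refine ⟨δ, max (max N0 A2) (max (max N3 N4) 1), hδ, ?_⟩
  intro N hN f hf hfN g hg hg0
  have hNN0 : N0 ≤ N := le_trans (le_trans (le_max_left _ _) (le_max_left _ _)) hN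
  have hA2 : A2 ≤ max (max N0 A2) (max (max N3 N4) 1) := le_trans (le_max_right _ _) (le_max_left _ _)
  have hNN2 : A2 ≤ N := hA2.trans hN
  have hNN3 : N3 ≤ N := le_trans (le_trans (le_trans (le_max_left _ _) (le_max_left _ _)) (le_max_right _ _)) hN
  have hNN4 : N4 ≤ N := le_trans (le_trans (le_trans (le_max_right _ _) (le_max_left _ _)) (le_max_right _ _)) hN
  have hNN1 : 1 ≤ N := le_trans (le_trans (le_max_right _ _) (le_max_right _ _)) hN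
  have hNR : (1 : ℝ) ≤ N := by exact_mod_cast hNN1
  by_contra hcon
  rw [not_le] at hcon
  have hg1 : ∀ i n, ‖g i n‖ ≤ 1 := fun i n => (hg i).bd n
  obtain ⟨ζ, hζ, hstr⟩ := str N (fun n => ∏ i, g i (n + h i)) (fun n => by
    rw [norm_prod]
    exact Finset.prod_le_one (fun i _ => norm_nonneg _) (fun i _ => hg1 i _)) δ η hη hcon
  have hstr2 : (((Icc 1 N).filter (fun n => η / 2 < ‖∏ i, g i (n + h i) - ζ‖)).card : ℝ) ≤ min δ0 ε * N :=
    hstr.trans (mul_le_mul_of_nonneg_right hδ1 (by positivity))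
  obtain ⟨E1, hE1⟩ : ∃ E1, E1 = ((Icc 1 N).filter (fun n => η / 2 < ‖∏ i, g i (n + h i) - ζ‖)).card := ⟨_, rfl⟩
  have hE1d : (E1 : ℝ) ≤ δ0 * N := by
    rw [hE1]
    exact hstr2.trans (mul_le_mul_of_nonneg_right (min_le_left _ _) (by positivity))
  have hE1e : (E1 : ℝ) ≤ ε * N := by
    rw [hE1]
    exact hstr2.trans (mul_le_mul_of_nonneg_right (min_le_right _ _) (by positivity))
  obtain ⟨P, c', hP0, hP1', hPPm, hsum⟩ := hedc N g ζ hNN0 hg (by rw [← hE1]; exact hE1d)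
  have hPa : P1 ≤ P := (le_max_left _ _).trans hP0
  have hPb : P1' ≤ P := ((le_max_left _ _).trans (le_max_right _ _)).trans hP0
  set u : ℕ → ℝ := fun p => (((Icc 1 N).filter (fun n => η < ‖∏ i, g i (n + p * h i) - c' p‖)).card : ℝ) with hu
  set 𝒢 := (PP P).filter (fun p => u p ≤ 2 * (ε * N)) with h𝒢
  have h𝒢c : (PP P).card ≤ 2 * 𝒢.card := by
    refine fi1_half (PP P) u (fun p _ => Nat.cast_nonneg _) (ε * N) (by positivity) ?_
    refine hsum.trans (le_of_eq ?_)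
    ring
  have h𝒢s : 𝒢 ⊆ PP P := Finset.filter_subset _ _
  set E2 := ⌊2 * (ε * N)⌋₊ with hE2
  have hE2e : (E2 : ℝ) ≤ 2 * (ε * N) := Nat.floor_le (by positivity)
  have hd : ∀ p ∈ 𝒢, ∃ c' : ℂ, ‖c'‖ = 1 ∧
      ex N (fun n => ‖∏ i, dir (g i (n + (p : ℤ) * h i).toNat) - c'‖ ≤ 4 * η) ≤ E2 + 2 * (E1 + p * Mh) := by
    intro p hp
    have hp1 : 1 ≤ p := (Finset.mem_filter.mp (h𝒢s hp)).2.one_le
    have h1 := drl 1 N h g hg1 ζ hζ η hη (by push_cast; linarith) p hp1 (c' p) E1 E2 Mh hhM hE1.ge (by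
      have h2 : u p ≤ 2 * (ε * N) := (Finset.mem_filter.mp hp).2
      exact Nat.le_floor h2)
    obtain ⟨c'', h3, h4⟩ := h1
    refine ⟨c'', h3, ?_⟩
    have e1 : (((1 : ℕ) : ℝ) + 3) * η = 4 * η := by push_cast; ring
    rw [e1] at h4
    exact h4
  obtain ⟨R, hR1, hR2⟩ := hpos P 𝒢 hPa h𝒢s h𝒢c
  obtain ⟨x, hx, y, hy, hxy1, hxyD⟩ := hsm P hPb hP1' (R.image (fun r => r 0)) (by
    intro z hz
    obtain ⟨r, hr, rfl⟩ := Finset.mem_image.mp hz
    exact (hR1 r hr).1 0) (by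
    rw [Finset.card_image_of_injective]
    · simpa using hR2
    · intro r r' hrr
      funext i
      fin_cases i
      exact hrr)
  obtain ⟨rx, hrx, rfl⟩ := Finset.mem_image.mp hx
  obtain ⟨ry, hry, rfl⟩ := Finset.mem_image.mp hy
  obtain ⟨Cx, hCx, hx2⟩ := fi1_rel h N P Mh E1 E2 g 𝒢 h𝒢s η hhM hd rx (hR1 rx hrx).1 (hR1 rx hrx).2
  obtain ⟨Cy, hCy, hy2⟩ := fi1_rel h N P Mh E1 E2 g 𝒢 h𝒢s η hhM hd ry (hR1 ry hry).1 (hR1 ry hry).2
  set s : ℤ := (h 0 : ℤ) - h 1 with hs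
  have hs0 : s ≠ 0 := by
    rw [hs]
    omega
  have hsM : s.natAbs ≤ Mh := by
    rw [hs]
    omega
  have h1 := fi1_comb N (fun n => dir (g 0 n.toNat)) (fun n => dir_norm _) (rx 0) (ry 0) s Cx Cy hCx (8 * η) _ hx2 hy2
  set a := (ry 0 - rx 0) * s with ha
  have ha0 : a ≠ 0 := mul_ne_zero (by omega) hs0
  have haM : a.natAbs ≤ D * Mh := by
    rw [ha, Int.natAbs_mul]
    refine Nat.mul_le_mul ?_ hsM
    omega
  have hxs : (rx 0 * s).natAbs ≤ P * Mh := by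
    rw [Int.natAbs_mul]
    refine Nat.mul_le_mul ?_ hsM
    have := abs_le.mp ((hR1 rx hrx).1 0)
    omega
  set E4 := 2 * (E2 + 2 * (E1 + 2 * P * Mh) + 2 * P * Mh) with hE4
  obtain ⟨E, hE⟩ : ∃ E, E = 2 * E4 + P * Mh + (E1 + Mh) := ⟨_, rfl⟩
  have hsz := siz 1 N h g hg1 ζ hζ η hη (by linarith) E1 Mh hhM hE1.ge
  have hPR : (1 : ℝ) ≤ P := by exact_mod_cast hP1'
  have hPPR : (P : ℝ) ≤ Pm := by exact_mod_cast hPPm
  have hMhR : (0 : ℝ) ≤ Mh := by positivity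
  have hPM : (P : ℝ) * Mh ≤ Pm * Mh := mul_le_mul_of_nonneg_right hPPR hMhR
  have hPM1 : (Mh : ℝ) ≤ Pm * Mh := by nlinarith
  have hER : (E : ℝ) ≤ 17 * (ε * N) + 26 * (Pm * Mh) := by
    rw [hE, hE4]
    push_cast
    linarith
  have haR : (a.natAbs : ℝ) ≤ D * Mh := by exact_mod_cast haM
  have hN3' : 2 * (2600 * Pm * Mh + 100 * (D * Mh) + 100) ≤ (N : ℝ) := hN3.trans (by exact_mod_cast hNN3)
  have hN4' : 2 * (52 * Pm * Mh + 3 * (D * Mh) + Mh) ≤ ρ * (N : ℝ) := by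
    have := hN4.trans (by exact_mod_cast hNN4 : (N4 : ℝ) ≤ N)
    rw [div_le_iff₀ hρ] at this
    linarith
  have hεN : ε * N ≤ 1 / 4000 * N := mul_le_mul_of_nonneg_right hε2 (by positivity)
  have hεN' : ε * N ≤ ρ / 4000 * N := mul_le_mul_of_nonneg_right hε1 (by positivity)
  have hbig : 100 * (E + a.natAbs + 1) ≤ N := by
    have : 100 * ((E : ℝ) + a.natAbs + 1) ≤ N := by
      have e1 : 2600 * (Pm : ℝ) * Mh = 2600 * (Pm * Mh) := by ring
      rw [e1] at hN3'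
      linarith
    exact_mod_cast this
  have hCC : ‖Cy * (starRingEnd ℂ) Cx‖ = 1 := by
    rw [norm_mul, RCLike.norm_conj, hCx, hCy, one_mul]
  have h2 := two f hf N E a (Cy * (starRingEnd ℂ) Cx) hCC (2 * (8 * η)) hbig (by
    rw [hg0] at h1
    omega) (by
    rw [hg0] at hsz
    omega)
  have h3 := fi1_sign N (fun n => dir (f n.toNat)) a (8 * (2 * (8 * η))) _ h2
  have hK : 2 * a.natAbs ≤ 2 * D * Mh := by
    rw [mul_assoc]
    exact Nat.mul_le_mul_left _ haM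
  refine hctr N hNN2 f hf (NA_mono hfN hA2) (2 * a.natAbs) (by omega) hK ?_ ?_
  · have h4 : ex N (fun n => ‖dir (f (n + ((2 * a.natAbs : ℕ) : ℤ)).toNat) - dir (f n.toNat)‖ ≤ ρ) ≤
        2 * E + a.natAbs + 2 * a.natAbs := by
      refine le_trans (ex_mono fun n _ _ hn => ?_) h3
      refine le_trans hn ?_
      linarith
    have h5 : (ex N (fun n => ‖dir (f (n + ((2 * a.natAbs : ℕ) : ℤ)).toNat) - dir (f n.toNat)‖ ≤ ρ) : ℝ) ≤
        2 * E + a.natAbs + 2 * a.natAbs := by exact_mod_cast h4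
    refine h5.trans ?_
    have e1 : 52 * (Pm : ℝ) * Mh = 52 * (Pm * Mh) := by ring
    have e2 : ρ / 4000 * (N : ℝ) = ρ * N / 4000 := by ring
    have e3 : 0 < ρ * (N : ℝ) := by positivity
    rw [e1] at hN4'
    rw [e2] at hεN'
    linarith
  · rw [hg0] at hsz
    have h4 : (ex N (fun n => 1 / 2 ≤ ‖f n.toNat‖) : ℝ) ≤ E1 + Mh := by exact_mod_cast hsz
    refine h4.trans ?_
    have : (0 : ℝ) ≤ Pm * Mh := by positivity
    have h6 : (0 : ℝ) ≤ D * Mh := by positivity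
    have h7 : 0 < ρ * N := by positivity
    have e1 : 52 * (Pm : ℝ) * Mh = 52 * (Pm * Mh) := by ring
    have e2 : ρ / 4000 * (N : ℝ) = ρ * N / 4000 := by ring
    rw [e1] at hN4'
    rw [e2] at hεN'
    linarith

end Pool.H2.WE
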