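import Pool.Agent.H2.MU.Ctr
import Pool.Agent.H2.WE.Fin

/-!
# [H2 MU] Uniform version of H2/WE/Fin at a single scale (proof of helper24 with `ctrN`)
-/

namespace Pool.H2.WE

open Finset Pool.H2.MR

theorem finN (k q : ℕ) (hq : 1 ≤ q) (h : Fin (k + 1) → ℕ) (hh : ∀ i, i ≠ 0 → h i ≠ h 0) : ∃ (δ : ℝ) (A : ℕ), 0 < δ ∧
    ∀ N : ℕ, A ≤ N → ∀ f : ℕ → ℂ, OB f → NA A N f → (∀ n, ∃ r : ℝ, 0 ≤ r ∧ f n ^ q = r) →
      ∀ g : Fin (k + 1) → ℕ → ℂ, (∀ i, OB (g i)) → g 0 = f → ‖∑ n ∈ Icc 1 N, ∏ i, g i (n + h i)‖ ≤ (1 - δ) * N := by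
  classical
  obtain ⟨c, P1, hc, hP1, hpos⟩ := pos k
  obtain ⟨D, P1', hD, hsml⟩ := sml k c hc
  obtain ⟨Mh, hMh⟩ : ∃ Mh : ℕ, Mh = ∑ i, h i + 1 := ⟨_, rfl⟩
  have hMi : ∀ i, h i ≤ Mh := by
    intro i
    have := Finset.single_le_sum (f := h) (fun _ _ => Nat.zero_le _) (Finset.mem_univ i)
    omega
  have hMh1 : 1 ≤ Mh := by omega
  obtain ⟨C, hC⟩ := ord q (D * Mh) hq k
  obtain ⟨ρ, A1, hρ, hctr⟩ := ctrN ((q * (D * Mh).factorial) ^ k) (Nat.one_le_iff_ne_zero.2 (by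
    have h1 := Nat.factorial_pos (D * Mh)
    positivity))
  have hq0 : (0 : ℝ) < q := by exact_mod_cast hq
  have hk3 : (0 : ℝ) < (k : ℝ) + 3 := by positivity
  obtain ⟨η, hη⟩ : ∃ η : ℝ, η = 1 / (8 * q * 2 ^ k * (k + 3)) := ⟨_, rfl⟩
  have hη0 : 0 < η := by rw [hη]; positivity
  have hηk : ((k : ℝ) + 3) * η = 1 / (8 * q * 2 ^ k) := by
    rw [hη]
    field_simp
  have h2k : (1 : ℝ) ≤ 2 ^ k := one_le_pow₀ (by norm_num)
  have hq1 : (1 : ℝ) ≤ q := by exact_mod_cast hq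
  have hηk1 : ((k : ℝ) + 3) * η ≤ 1 := by
    rw [hηk, div_le_one (by positivity)]
    nlinarith
  have hη1 : η ≤ 1 := by
    have : (0 : ℝ) ≤ k := Nat.cast_nonneg k
    nlinarith
  have hηq : 2 * (2 ^ k * (((k : ℝ) + 3) * η)) < 1 / q := by
    rw [hηk]
    have h1 : 2 * (2 ^ k * (1 / (8 * (q : ℝ) * 2 ^ k))) = 1 / q / 4 := by
      field_simp
      norm_num
    rw [h1]
    have h2 : (0 : ℝ) < 1 / q := by positivity
    linarith
  obtain ⟨α, hα⟩ : ∃ α : ℝ, α = 4 ^ k * ((k : ℝ) + 3) := ⟨_, rfl⟩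
  have hα1 : 1 ≤ α := by
    rw [hα]
    have h1 : (1 : ℝ) ≤ 4 ^ k := one_le_pow₀ (by norm_num)
    have h2 : (0 : ℝ) ≤ k := Nat.cast_nonneg k
    nlinarith
  have hC0 : (0 : ℝ) ≤ C := Nat.cast_nonneg C
  have hCα : 1 ≤ ((C : ℝ) + 1) * α := by nlinarith
  obtain ⟨ε, hε⟩ : ∃ ε : ℝ, ε = min 1 (ρ / (2 * (((C : ℝ) + 1) * α))) := ⟨_, rfl⟩
  have hε0 : 0 < ε := by
    rw [hε]
    exact lt_min one_pos (by positivity)
  have hε1 : ε ≤ 1 := by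
    rw [hε]
    exact min_le_left _ _
  have hερ : ((C : ℝ) + 1) * α * ε ≤ ρ / 2 := by
    have h1 : ε ≤ ρ / (2 * (((C : ℝ) + 1) * α)) := by
      rw [hε]
      exact min_le_right _ _
    rw [le_div_iff₀ (by positivity)] at h1
    linarith
  obtain ⟨Pmax, N0, δ₀, hδ₀, hedc⟩ := edc k h ε η hε0 hε1 hη0 (max P1 (max P1' 1))
  obtain ⟨β, hβ⟩ : ∃ β : ℝ, β = 4 ^ k * (2 * ((k : ℝ) + 2) * Pmax * Mh) + 2 ^ k * (Pmax * Mh) := ⟨_, rfl⟩
  obtain ⟨N2, hN2⟩ : ∃ N2 : ℕ, N2 = ⌈(C * (β + 1) + Mh) / (ρ / 2)⌉₊ := ⟨_, rfl⟩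
  refine ⟨min δ₀ ε * η ^ 2 / 8, N0 + A1 + N2 + 1, by positivity, ?_⟩
  intro N hNN f hf hN hr g hg hg0
  by_contra hcon
  rw [not_le] at hcon
  have hNpos : (0 : ℝ) < N := by
    have : 0 < N := by omega
    exact_mod_cast this
  have hβ0 : 0 ≤ β := by
    rw [hβ]
    positivity
  have hNβ : C * (β + 1) + Mh ≤ ρ / 2 * N := by
    have h1 : (C * (β + 1) + Mh) / (ρ / 2) ≤ N := by
      refine (Nat.le_ceil _).trans ?_
      rw [← hN2]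
      exact_mod_cast (by omega : N2 ≤ N)
    rw [div_le_iff₀ (by positivity)] at h1
    linarith
  have hgn : ∀ i n, ‖g i n‖ ≤ 1 := fun i n => (hg i).bd n
  obtain ⟨ζ, hζ, hstr⟩ := str N (fun n => ∏ i, g i (n + h i)) (by
    intro n
    rw [norm_prod]
    exact Finset.prod_le_one (fun _ _ => norm_nonneg _) (fun i _ => hgn i _)) (min δ₀ ε * η ^ 2 / 8) η hη0 hcon
  have h8 : 8 * (min δ₀ ε * η ^ 2 / 8) / η ^ 2 = min δ₀ ε := by
    field_simp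
  rw [h8] at hstr
  obtain ⟨E1, hE1⟩ : ∃ E1 : ℕ, E1 = ((Icc 1 N).filter (fun n => η / 2 < ‖∏ i, g i (n + h i) - ζ‖)).card := ⟨_, rfl⟩
  rw [← hE1] at hstr
  have hE1ε : (E1 : ℝ) ≤ ε * N := hstr.trans (mul_le_mul_of_nonneg_right (min_le_right _ _) hNpos.le)
  obtain ⟨P, cc, hPP, hP1', hPmax, hsum⟩ := hedc N g ζ (by omega) hg (by
    rw [← hE1]
    exact hstr.trans (mul_le_mul_of_nonneg_right (min_le_left _ _) hNpos.le))
  have hPP1 : P1 ≤ P := le_trans (le_max_left _ _) hPP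
  have hPP2 : P1' ≤ P := le_trans (le_trans (le_max_left _ _) (le_max_right _ _)) hPP
  obtain ⟨cnt, hcnt⟩ : ∃ cnt : ℕ → ℕ, cnt = fun p => ((Icc 1 N).filter (fun n => η < ‖∏ i, g i (n + p * h i) - cc p‖)).card := ⟨_, rfl⟩
  obtain ⟨𝒢, h𝒢⟩ : ∃ 𝒢 : Finset ℕ, 𝒢 = (PP P).filter (fun p => (cnt p : ℝ) ≤ 2 * ε * N) := ⟨_, rfl⟩
  have hsub : 𝒢 ⊆ PP P := by
    rw [h𝒢]
    exact Finset.filter_subset _ _
  have hcard : (PP P).card ≤ 2 * 𝒢.card := by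
    have h1 := Finset.card_filter_add_card_filter_not (s := PP P) (fun p => (cnt p : ℝ) ≤ 2 * ε * N)
    rw [← h𝒢] at h1
    have h2 : (((PP P).filter (fun p => ¬ (cnt p : ℝ) ≤ 2 * ε * N)).card : ℝ) * (2 * ε * N) ≤ ε * (PP P).card * N := by
      refine le_trans ?_ hsum
      rw [← nsmul_eq_mul, ← Finset.sum_const]
      refine le_trans (Finset.sum_le_sum (g := fun p => (cnt p : ℝ)) fun p hp => ?_) ?_
      · exact (not_le.1 (Finset.mem_filter.1 hp).2).le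
      · rw [hcnt]
        exact Finset.sum_le_sum_of_subset_of_nonneg (Finset.filter_subset _ _) (fun _ _ _ => Nat.cast_nonneg _)
    have h3 : 2 * (((PP P).filter (fun p => ¬ (cnt p : ℝ) ≤ 2 * ε * N)).card : ℝ) ≤ (PP P).card := by
      have h4 : 0 < ε * N := by positivity
      have h5 : 2 * (((PP P).filter (fun p => ¬ (cnt p : ℝ) ≤ 2 * ε * N)).card : ℝ) * (ε * N) ≤ (PP P).card * (ε * N) := by
        linarith
      exact le_of_mul_le_mul_right h5 h4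
    have h4 : 2 * ((PP P).filter (fun p => ¬ (cnt p : ℝ) ≤ 2 * ε * N)).card ≤ (PP P).card := by exact_mod_cast h3
    omega
  obtain ⟨R, hR1, hR2⟩ := hpos P 𝒢 hPP1 hsub hcard
  obtain ⟨E3, hE3⟩ : ∃ E3 : ℕ, E3 = ⌊2 * ε * N⌋₊ + (k + 1) * (E1 + 2 * Pmax * Mh) := ⟨_, rfl⟩
  have key : ∀ p : ℕ, ∃ c' : ℂ, p ∈ 𝒢 → ‖c'‖ = 1 ∧
      ex N (fun n => ‖∏ i, dir (g i (n + (p : ℤ) * h i).toNat) - c'‖ ≤ (k + 3) * η) ≤ E3 := by
    intro p
    by_cases hp : p ∈ 𝒢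
    · have hp1 := hp
      rw [h𝒢, Finset.mem_filter] at hp1
      have hp2 := hp1.1
      unfold PP at hp2
      rw [Finset.mem_filter, Finset.mem_Ioc] at hp2
      obtain ⟨c', h1, h2⟩ := drl k N h g hgn ζ hζ η hη0 hηk1 p hp2.2.one_lt.le (cc p) E1 (cnt p) Mh hMi (by rw [hE1])
        (by rw [hcnt])
      refine ⟨c', fun _ => ⟨h1, h2.trans ?_⟩⟩
      rw [hE3]
      have h3 : cnt p ≤ ⌊2 * ε * N⌋₊ := Nat.le_floor hp1.2
      have h4 : p * Mh ≤ 2 * Pmax * Mh := Nat.mul_le_mul_right _ (by omega)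
      have h5 : (k + 1) * (E1 + p * Mh) ≤ (k + 1) * (E1 + 2 * Pmax * Mh) := Nat.mul_le_mul_left _ (by omega)
      omega
    · exact ⟨1, fun h => absurd h hp⟩
  choose c' hc' using key
  have hmain := fin_core k q N hq h hh Mh hMi D C P c hC (hsml P hPP2 hP1') g (by
    intro n
    rw [hg0]
    obtain ⟨r, hr1, hr2⟩ := hr n
    exact dir_pow q _ r hr1 hr2) 𝒢 hsub c' (fun p hp => (hc' p hp).1) _ hηq E3 (fun p hp => (hc' p hp).2) R hR1 hR2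
  have hsiz := siz k N h g hgn ζ hζ η hη0 hη1 E1 Mh hMi (by rw [hE1])
  rw [hg0] at hmain hsiz
  have hPR : (P : ℝ) ≤ Pmax := by exact_mod_cast hPmax
  refine hctr N (by omega) f hf (NA_mono hN (by omega)) ?_ ?_
  · refine le_trans (b := (ex N (fun n => dir (f (n + (((q * (D * Mh).factorial) ^ k : ℕ) : ℤ)).toNat) = dir (f n.toNat)) : ℝ)) ?_ ?_
    · exact_mod_cast ex_mono (fun n _ _ hn => by rw [hn, sub_self, norm_zero]; exact hρ.le)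
    have h1 : (E3 : ℝ) ≤ ((k : ℝ) + 3) * (ε * N) + 2 * (k + 1) * Pmax * Mh := by
      rw [hE3]
      push_cast
      have h2 : (⌊2 * ε * N⌋₊ : ℝ) ≤ 2 * ε * N := Nat.floor_le (by positivity)
      have h3 : ((k : ℝ) + 1) * E1 ≤ (k + 1) * (ε * N) := mul_le_mul_of_nonneg_left hE1ε (by positivity)
      nlinarith
    have hPM : (P : ℝ) * Mh ≤ Pmax * Mh := mul_le_mul_of_nonneg_right hPR (Nat.cast_nonneg _)
    have h44 : (4 : ℝ) ^ k = 2 ^ k * 2 ^ k := by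
      rw [← mul_pow]
      norm_num
    have h2 : (2 : ℝ) ^ k * (2 ^ k * ((E3 : ℝ) + 2 * P * Mh) + P * Mh) ≤ α * (ε * N) + β := by
      have h3 : (E3 : ℝ) + 2 * P * Mh ≤ ((k : ℝ) + 3) * (ε * N) + 2 * (k + 2) * Pmax * Mh := by
        linarith
      have h4 : (2 : ℝ) ^ k * (2 ^ k * ((E3 : ℝ) + 2 * P * Mh)) ≤
          2 ^ k * (2 ^ k * (((k : ℝ) + 3) * (ε * N) + 2 * (k + 2) * Pmax * Mh)) :=
        mul_le_mul_of_nonneg_left (mul_le_mul_of_nonneg_left h3 (by positivity)) (by positivity)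
      have h5 : (2 : ℝ) ^ k * (P * Mh) ≤ 2 ^ k * (Pmax * Mh) := mul_le_mul_of_nonneg_left hPM (by positivity)
      calc (2 : ℝ) ^ k * (2 ^ k * ((E3 : ℝ) + 2 * P * Mh) + P * Mh)
          = 2 ^ k * (2 ^ k * ((E3 : ℝ) + 2 * P * Mh)) + 2 ^ k * (P * Mh) := by ring
        _ ≤ 2 ^ k * (2 ^ k * (((k : ℝ) + 3) * (ε * N) + 2 * (k + 2) * Pmax * Mh)) + 2 ^ k * (Pmax * Mh) := add_le_add h4 h5
        _ = α * (ε * N) + β := by
          rw [hα, hβ, h44]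
          ring
    have h3 : (ex N (fun n => dir (f (n + (((q * (D * Mh).factorial) ^ k : ℕ) : ℤ)).toNat) = dir (f n.toNat)) : ℝ) ≤
        C * (2 ^ k * (2 ^ k * ((E3 : ℝ) + 2 * P * Mh) + P * Mh) + 1) := by exact_mod_cast hmain
    refine h3.trans ?_
    calc (C : ℝ) * (2 ^ k * (2 ^ k * ((E3 : ℝ) + 2 * P * Mh) + P * Mh) + 1) ≤ C * ((α * (ε * N) + β) + 1) :=
          mul_le_mul_of_nonneg_left (by linarith) hC0
      _ = C * α * ε * N + C * (β + 1) := by ring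
      _ ≤ (C + 1) * α * ε * N + C * (β + 1) := by
          have : 0 ≤ α * ε * N := by positivity
          nlinarith
      _ ≤ ρ / 2 * N + (C * (β + 1) + Mh) := by
          have h6 : ((C : ℝ) + 1) * α * ε * N ≤ ρ / 2 * N := mul_le_mul_of_nonneg_right hερ hNpos.le
          have h7 : (0 : ℝ) ≤ Mh := Nat.cast_nonneg _
          linarith
      _ ≤ ρ / 2 * N + ρ / 2 * N := by linarith
      _ = ρ * N := by ring
  · have h3 : (ex N (fun n => 1 / 2 ≤ ‖f n.toNat‖) : ℝ) ≤ (E1 : ℝ) + Mh := by exact_mod_cast hsiz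
    refine h3.trans ?_
    have h4 : ε ≤ ρ / 2 := by
      refine le_trans ?_ hερ
      nlinarith
    have h5 : ε * N ≤ ρ / 2 * N := mul_le_mul_of_nonneg_right h4 hNpos.le
    have h6 : 0 ≤ C * (β + 1) := by positivity
    linarith

end Pool.H2.WE
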