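import Pool.Agent.H2.MU.Fin
import Pool.Agent.H2.MU.Fi1
import Pool.Agent.H2.WE.Res

/-!
# [H2 MU] The weak Elliott conjecture, uniform version at a single scale
-/

namespace Pool.H2.WE

open Finset Pool.H2.MR

theorem NA_term (f : ℕ → ℂ) (hf : OB f) (r : ℕ) (χ : DirichletCharacter ℂ r) (t : ℝ) (p : ℕ) (hp : 1 ≤ p) :
    0 ≤ (1 - (f p * starRingEnd ℂ (χ (p : ZMod r) * (p : ℂ) ^ (Complex.I * (t : ℂ)))).re) / (p : ℝ) ∧
    (1 - (f p * starRingEnd ℂ (χ (p : ZMod r) * (p : ℂ) ^ (Complex.I * (t : ℂ)))).re) / (p : ℝ) ≤ 2 / p := by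
  have h1 : ‖f p * starRingEnd ℂ (χ (p : ZMod r) * (p : ℂ) ^ (Complex.I * (t : ℂ)))‖ ≤ 1 := by
    rw [norm_mul, RCLike.norm_conj, norm_mul, Complex.norm_natCast_cpow_of_pos hp]
    have h2 : (Complex.I * (t : ℂ)).re = 0 := by simp
    rw [h2, Real.rpow_zero, mul_one]
    exact mul_le_one₀ (hf.bd p) (norm_nonneg _) (χ.norm_le_one _)
  have h3 := abs_le.1 ((Complex.abs_re_le_norm _).trans h1)
  constructor
  · exact div_nonneg (by linarith) (Nat.cast_nonneg p)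
  · exact div_le_div_of_nonneg_right (by linarith) (Nat.cast_nonneg p)

theorem NA_shift (f : ℕ → ℂ) (hf : OB f) (A N T : ℕ) (hN : 3 * T + 1 ≤ N) (h : NA (A + 1) N f) : NA A (N - T) f := by
  intro r χ hr hrA t ht
  have hNT : ((N - T : ℕ) : ℝ) ≤ N := by exact_mod_cast Nat.sub_le N T
  have h1 := h r χ hr (by omega) t (ht.trans hNT)
  obtain ⟨F, hF⟩ : ∃ F : ℕ → ℝ, F = fun p => (1 - (f p * starRingEnd ℂ (χ (p : ZMod r) * (p : ℂ) ^ (Complex.I * (t : ℂ)))).re) / (p : ℝ) := ⟨_, rfl⟩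
  have h1' : ((A : ℝ) + 1) ≤ ∑ p ∈ (Icc 1 N).filter Nat.Prime, F p := by
    rw [hF]
    exact_mod_cast h1
  have hF0 : ∀ p : ℕ, 1 ≤ p → 0 ≤ F p := fun p hp => by rw [hF]; exact (NA_term f hf r χ t p hp).1
  have hF2 : ∀ p : ℕ, 1 ≤ p → F p ≤ 2 / p := fun p hp => by rw [hF]; exact (NA_term f hf r χ t p hp).2
  have h2 : ∑ p ∈ (Icc 1 N).filter Nat.Prime, F p ≤ ∑ p ∈ (Icc 1 (N - T)).filter Nat.Prime, F p + ∑ p ∈ Ioc (N - T) N, F p := by
    rw [← Finset.sum_union]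
    · refine Finset.sum_le_sum_of_subset_of_nonneg ?_ ?_
      · intro p hp
        rw [Finset.mem_filter, Finset.mem_Icc] at hp
        rw [Finset.mem_union, Finset.mem_filter, Finset.mem_Icc, Finset.mem_Ioc]
        by_cases hpN : p ≤ N - T
        · exact Or.inl ⟨⟨hp.1.1, hpN⟩, hp.2⟩
        · exact Or.inr ⟨by omega, hp.1.2⟩
      · intro p hp _
        rw [Finset.mem_union, Finset.mem_filter, Finset.mem_Icc, Finset.mem_Ioc] at hp
        exact hF0 p (by omega)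
    · rw [Finset.disjoint_left]
      intro p hp hp'
      rw [Finset.mem_filter, Finset.mem_Icc] at hp
      rw [Finset.mem_Ioc] at hp'
      omega
  have hX0 : (0 : ℝ) < ((N - T : ℕ) : ℝ) := by
    have : 0 < N - T := by omega
    exact_mod_cast this
  have h3 : ∑ p ∈ Ioc (N - T) N, F p ≤ 1 := by
    have h4 : ∑ p ∈ Ioc (N - T) N, F p ≤ ∑ p ∈ Ioc (N - T) N, 2 / ((N - T : ℕ) : ℝ) := by
      refine Finset.sum_le_sum fun p hp => ?_
      rw [Finset.mem_Ioc] at hp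
      refine (hF2 p (by omega)).trans ?_
      have hpX : ((N - T : ℕ) : ℝ) ≤ p := by exact_mod_cast hp.1.le
      exact div_le_div_of_nonneg_left (by norm_num) hX0 hpX
    refine h4.trans ?_
    rw [Finset.sum_const, Nat.card_Ioc, nsmul_eq_mul]
    have h5 : ((N - (N - T) : ℕ) : ℝ) = T := by
      have : N - (N - T) = T := by omega
      rw [this]
    rw [h5, ← mul_div_assoc, div_le_one hX0]
    have h6 : 2 * T ≤ N - T := by omega
    have h7 : ((2 * T : ℕ) : ℝ) ≤ ((N - T : ℕ) : ℝ) := by exact_mod_cast h6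
    push_cast at h7
    linarith
  have h4 : (A : ℝ) ≤ ∑ p ∈ (Icc 1 (N - T)).filter Nat.Prime, F p := by linarith
  rw [hF] at h4
  exact h4

theorem NA_of_cond (f : ℕ → ℂ) (hf : CondNN f) (A : ℕ) : ∃ N₁ : ℕ, ∀ N : ℕ, N₁ ≤ N → NA A N f := by
  have key : ∀ r ∈ Icc 1 A, ∀ᶠ N : ℕ in Filter.atTop, ∀ χ : DirichletCharacter ℂ r, ∀ t : ℝ, |t| ≤ N →
      (A : ℝ) ≤ ∑ p ∈ (Icc 1 N).filter Nat.Prime,
        (1 - (f p * starRingEnd ℂ (χ (p : ZMod r) * (p : ℂ) ^ (Complex.I * (t : ℂ)))).re) / (p : ℝ) := by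
    intro r hr
    rw [Finset.mem_Icc] at hr
    have : NeZero r := ⟨by omega⟩
    rw [Filter.eventually_all]
    intro χ
    obtain ⟨X₀, hX₀⟩ := hf r χ (by omega) A
    filter_upwards [Filter.eventually_ge_atTop ⌈X₀⌉₊] with N hN t ht
    have h1 := hX₀ N ((Nat.le_ceil _).trans (by exact_mod_cast hN)) t ht
    refine h1.trans (le_of_eq ?_)
    rw [Nat.floor_natCast]
    refine Finset.sum_congr ?_ fun _ _ => rfl
    ext p
    simp only [Finset.mem_filter, Finset.mem_Iic, Finset.mem_Icc]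
    constructor
    · rintro ⟨h3, h4⟩
      exact ⟨⟨h4.pos, h3⟩, h4⟩
    · rintro ⟨⟨_, h3⟩, h4⟩
      exact ⟨h3, h4⟩
  have key2 := (Filter.eventually_all_finset (Icc 1 A)).2 key
  obtain ⟨N₁, hN₁⟩ := Filter.eventually_atTop.1 key2
  refine ⟨N₁, fun N hN r χ hr hrA t ht => ?_⟩
  exact hN₁ N hN r (Finset.mem_Icc.2 ⟨hr, hrA⟩) χ t ht

theorem resN (k q : ℕ) (hq : 1 ≤ q) (h : Fin (k + 1) → ℤ) (hh : ∀ i, i ≠ 0 → h i ≠ h 0) : ∃ (δ : ℝ) (A : ℕ), 0 < δ ∧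
    ∀ N : ℕ, A ≤ N → ∀ f : ℕ → ℂ, OB f → NA A N f → (k = 1 ∨ ∀ n, ∃ r : ℝ, 0 ≤ r ∧ f n ^ q = r) →
      ∀ g : Fin k → ℕ → ℂ, (∀ i, OB (g i)) →
        ‖(1 / (N : ℂ)) * ∑ n ∈ Icc 1 N, f ((n : ℤ) + h 0).toNat * ∏ i : Fin k, g i ((n : ℤ) + h i.succ).toNat‖ ≤ 1 - δ := by
  classical
  obtain ⟨T, hTdef⟩ : ∃ T : ℕ, T = ∑ i, (h i).natAbs := ⟨_, rfl⟩
  have hT : ∀ i, |h i| ≤ T := by
    intro i
    have h1 : (h i).natAbs ≤ T := by
      rw [hTdef]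
      exact Finset.single_le_sum (f := fun i => (h i).natAbs) (fun _ _ => Nat.zero_le _) (Finset.mem_univ i)
    rw [Int.abs_eq_natAbs]
    exact_mod_cast h1
  have hh' : ∀ i, i ≠ 0 → (h i + T).toNat ≠ (h 0 + T).toNat := by
    intro i hi h1
    apply hh i hi
    have h2 := abs_le.1 (hT i)
    have h3 := abs_le.1 (hT 0)
    omega
  obtain ⟨δ₁, A₁, hδ₁, H₁⟩ := finN k q hq (fun i => (h i + T).toNat) hh'
  obtain ⟨δ₂, A₂, hδ₂, H₂⟩ : ∃ (δ : ℝ) (A : ℕ), 0 < δ ∧ ∀ N : ℕ, A ≤ N → ∀ f : ℕ → ℂ, OB f → NA A N f → k = 1 →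
      ∀ g : Fin (k + 1) → ℕ → ℂ, (∀ i, OB (g i)) → g 0 = f →
        ‖∑ n ∈ Icc 1 N, ∏ i, g i (n + (h i + T).toNat)‖ ≤ (1 - δ) * N := by
    by_cases hk : k = 1
    · subst hk
      obtain ⟨δ, A, hδ, H⟩ := fi1N (fun i => (h i + T).toNat) (hh' 1 (by decide))
      exact ⟨δ, A, hδ, fun N hN f hf hc _ => H N hN f hf hc⟩
    · exact ⟨1, 0, one_pos, fun N _ f _ _ hk' => absurd hk' hk⟩
  set δ : ℝ := min (min δ₁ δ₂) 1 with hδ
  have hδ0 : 0 < δ := lt_min (lt_min hδ₁ hδ₂) one_pos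
  have hδ1 : δ ≤ 1 := min_le_right _ _
  have hδa : δ ≤ δ₁ := (min_le_left _ _).trans (min_le_left _ _)
  have hδb : δ ≤ δ₂ := (min_le_left _ _).trans (min_le_right _ _)
  obtain ⟨N₁, hN₁⟩ := exists_nat_ge (2 * (T : ℝ) / δ)
  refine ⟨δ / 2, A₁ + A₂ + 1 + 3 * T + N₁ + 1, by positivity, ?_⟩
  intro N hNN f hOB hNA hcase g hg
  have hN0 := NA_shift f hOB (A₁ + A₂) N T (by omega) (NA_mono hNA (by omega))
  have hN₀ : ∀ g : Fin (k + 1) → ℕ → ℂ, (∀ i, OB (g i)) → g 0 = f →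
      ‖∑ n ∈ Icc 1 (N - T), ∏ i, g i (n + (h i + T).toNat)‖ ≤ (1 - δ) * ((N - T : ℕ) : ℝ) := by
    intro g hg hg0
    rcases hcase with hk | hr
    · refine (H₂ (N - T) (by omega) f hOB (NA_mono hN0 (by omega)) hk g hg hg0).trans ?_
      apply mul_le_mul_of_nonneg_right _ (Nat.cast_nonneg _)
      linarith
    · refine (H₁ (N - T) (by omega) f hOB (NA_mono hN0 (by omega)) hr g hg hg0).trans ?_
      apply mul_le_mul_of_nonneg_right _ (Nat.cast_nonneg _)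
      linarith
  have hN2 : (N₁ : ℝ) ≤ N := by exact_mod_cast (by omega : N₁ ≤ N)
  have hG : ∀ i, OB ((Fin.cons f g : Fin (k + 1) → ℕ → ℂ) i) := by
    intro i
    refine Fin.cases ?_ (fun j => ?_) i
    · exact hOB
    · rw [Fin.cons_succ]
      exact hg j
  have h1 := res_shift k h T hT δ hδ0 hδ1 (Fin.cons f g) (fun i n => (hG i).bd n) N
    (by omega) (by
      have h2 := hN₁.trans hN2
      rw [div_le_iff₀ hδ0] at h2
      linarith) (hN₀ _ hG rfl)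
  simp only [Fin.prod_univ_succ, Fin.cons_zero, Fin.cons_succ] at h1
  exact h1

end Pool.H2.WE
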