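import Pool.Agent.H2.MR.Mrt

/-!
# [H2 MU] Uniform versions of the theorems of H2/MR at a single scale

`UN A X f`: the distance of `f` to all `n^(it)`, `|t| ≤ X`, up to `X` is at least `A` (the proofs are those of the original files; modules filled by several helpers, see departures/helper2.md).
-/

namespace Pool.H2.MR

open Finset MeasureTheory intervalIntegral

/-- condition (N) for the trivial character at a single scale -/
def UN (A : ℝ) (X : ℕ) (f : ℕ → ℂ) : Prop := ∀ t : ℝ, |t| ≤ X → A ≤ DD f t X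

theorem DD_term (f : ℕ → ℂ) (hf : OB f) (t : ℝ) (p : ℕ) : 0 ≤ (1 - (f p * ni t p).re) / (p : ℝ) ∧
    (1 - (f p * ni t p).re) / (p : ℝ) ≤ 2 / p := by
  have h1 : ‖f p * ni t p‖ ≤ 1 := by
    rw [norm_mul]
    refine mul_le_one₀ (hf.bd p) (norm_nonneg _) ?_
    unfold ni
    rcases Nat.eq_zero_or_pos p with rfl | hp
    · by_cases ht : -((t : ℂ) * Complex.I) = 0
      · rw [ht]; simp
      · rw [Nat.cast_zero, Complex.zero_cpow ht]; simp
    · rw [Complex.norm_natCast_cpow_of_pos hp]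
      simp
  have h2 := Complex.abs_re_le_norm (f p * ni t p)
  have h3 := abs_le.1 (h2.trans h1)
  constructor
  · exact div_nonneg (by linarith) (Nat.cast_nonneg p)
  · exact div_le_div_of_nonneg_right (by linarith) (Nat.cast_nonneg p)

theorem DD_mono (f : ℕ → ℂ) (hf : OB f) (t : ℝ) {X N : ℕ} (h : X ≤ N) : DD f t X ≤ DD f t N := by
  unfold DD
  refine Finset.sum_le_sum_of_subset_of_nonneg ?_ fun p _ _ => (DD_term f hf t p).1
  intro p hp
  rw [Finset.mem_filter, Finset.mem_Icc] at hp ⊢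
  exact ⟨⟨hp.1.1, hp.1.2.trans h⟩, hp.2⟩

theorem DD_drop (f : ℕ → ℂ) (hf : OB f) (t : ℝ) {X N : ℕ} (h : X ≤ N) (hX : 1 ≤ X) : DD f t N ≤ DD f t X + 2 * N / X := by
  classical
  have hsub : ((Icc 1 N).filter Nat.Prime) ⊆ ((Icc 1 X).filter Nat.Prime) ∪ (Ioc X N) := by
    intro p hp
    rw [Finset.mem_filter, Finset.mem_Icc] at hp
    rw [Finset.mem_union, Finset.mem_filter, Finset.mem_Icc, Finset.mem_Ioc]
    by_cases hpX : p ≤ X
    · exact Or.inl ⟨⟨hp.1.1, hpX⟩, hp.2⟩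
    · exact Or.inr ⟨by omega, hp.1.2⟩
  have hdis : Disjoint ((Icc 1 X).filter Nat.Prime) (Ioc X N) := by
    rw [Finset.disjoint_left]
    intro p hp hp'
    rw [Finset.mem_filter, Finset.mem_Icc] at hp
    rw [Finset.mem_Ioc] at hp'
    omega
  have hX0 : (0 : ℝ) < X := by exact_mod_cast hX
  calc DD f t N ≤ ∑ p ∈ ((Icc 1 X).filter Nat.Prime) ∪ (Ioc X N), (1 - (f p * ni t p).re) / (p : ℝ) :=
        Finset.sum_le_sum_of_subset_of_nonneg hsub fun p _ _ => (DD_term f hf t p).1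
    _ = DD f t X + ∑ p ∈ Ioc X N, (1 - (f p * ni t p).re) / (p : ℝ) := by
        rw [Finset.sum_union hdis]; rfl
    _ ≤ DD f t X + ∑ p ∈ Ioc X N, 2 / (X : ℝ) := by
        have h5 : ∑ p ∈ Ioc X N, (1 - (f p * ni t p).re) / (p : ℝ) ≤ ∑ p ∈ Ioc X N, 2 / (X : ℝ) := by
          refine Finset.sum_le_sum fun p hp => ?_
          rw [Finset.mem_Ioc] at hp
          refine (DD_term f hf t p).2.trans ?_
          have hpX : (X : ℝ) ≤ p := by exact_mod_cast hp.1.le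
          exact div_le_div_of_nonneg_left (by norm_num) hX0 hpX
        linarith
    _ ≤ DD f t X + 2 * N / X := by
        rw [Finset.sum_const, Nat.card_Ioc, nsmul_eq_mul]
        have h6 : ((N - X : ℕ) : ℝ) ≤ N := by exact_mod_cast Nat.sub_le _ _
        have h7 : ((N - X : ℕ) : ℝ) * (2 / X) ≤ N * (2 / X) := mul_le_mul_of_nonneg_right h6 (by positivity)
        have h8 : (N : ℝ) * (2 / X) = 2 * N / X := by ring
        linarith

theorem ptU (η : ℝ) (hη : 0 < η) : ∃ (A : ℝ) (X₀ : ℕ), ∀ X : ℕ, X₀ ≤ X → ∀ f : ℕ → ℂ, OB f → UN A X f → ∀ t : ℝ, |t| ≤ (X : ℝ) / 2 →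
    ‖ds f X (6 * X) t‖ ≤ η := by
  obtain ⟨T₀, M, Y₀, hT, hal'⟩ := hal (η / 7) (by positivity)
  refine ⟨M, max Y₀ (max ⌈2 * T₀⌉₊ 1), ?_⟩
  intro X hX f hf hN t ht
  have a1 : Y₀ ≤ X := (le_max_left _ _).trans hX
  have a3 : ⌈2 * T₀⌉₊ ≤ X := (le_max_left _ _).trans ((le_max_right _ _).trans hX)
  have a4 : 1 ≤ X := (le_max_right _ _).trans ((le_max_right _ _).trans hX)
  have a5 : 2 * T₀ ≤ X := (Nat.le_ceil _).trans (by exact_mod_cast a3)
  have hb := pt_bound (fun n => f n * ni t n) X a4 (η / 7) ?_ (by positivity)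
  · have e1 : ds f X (6 * X) t = ∑ n ∈ Ioc X (6 * X), f n * ni t n / n := by
      unfold ds
      refine Finset.sum_congr rfl fun n hn => ?_
      rw [Finset.mem_Ioc] at hn
      rw [nj_eq t n (by omega)]
      unfold ni
      ring
    rw [e1]
    linarith
  · intro N h1 h2
    refine hal' N _ (a1.trans h1) (pt_OB f hf t) ?_
    intro u hu
    rw [pt_DD]
    refine (hN (t + u) ?_).trans (DD_mono f hf _ h1)
    calc |t + u| ≤ |t| + |u| := abs_add_le _ _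
      _ ≤ X := by linarith

theorem pt0U (η : ℝ) (hη : 0 < η) : ∃ (A : ℝ) (X₀ : ℕ), ∀ X : ℕ, X₀ ≤ X → ∀ f : ℕ → ℂ, OB f → UN A X f → ∀ N : ℕ, X ≤ N →
    ‖∑ n ∈ Icc 1 N, f n‖ ≤ η * N := by
  obtain ⟨T₀, M, Y₀, hT, hal'⟩ := hal η hη
  refine ⟨M, max Y₀ ⌈T₀⌉₊, ?_⟩
  intro X hX f hf hN N hXN
  have a1 : Y₀ ≤ N := ((le_max_left _ _).trans hX).trans hXN
  have a3 : ⌈T₀⌉₊ ≤ X := (le_max_right _ _).trans hX
  have a5 : T₀ ≤ X := (Nat.le_ceil _).trans (by exact_mod_cast a3)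
  exact hal' N f a1 hf fun u hu => (hN u (hu.trans a5)).trans (DD_mono f hf _ hXN)

theorem finU (ε : ℝ) (hε : 0 < ε) (hε1 : ε ≤ 1) : ∃ δ : ℝ, 0 < δ ∧ δ ≤ 1 ∧ ∃ (A : ℝ) (X₀ : ℕ), ∀ X : ℕ, X₀ ≤ X → ∀ f : ℕ → ℂ, OB f → UN A X f →
    ∀ U : Set ℝ, MeasurableSet U → U ⊆ Set.Icc (-((X : ℝ) / 2)) ((X : ℝ) / 2) → volume U ≤ ENNReal.ofReal ((X : ℝ) ^ δ) →
    ∫ t in U, ‖ds f X (6 * X) t‖ ^ 2 ≤ ε := by
  obtain ⟨Ce, hCe, herr⟩ := err
  obtain ⟨C0, hC0, hprl⟩ := prl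
  obtain ⟨δs, Cs, Xs, hδs, hCs, hXs, hhs⟩ := hs
  obtain ⟨H, hHd⟩ : ∃ H : ℕ, H = ⌈32 * Ce / ε⌉₊ + 1 := ⟨_, rfl⟩
  have hH : 1 ≤ H := by omega
  have hHR : (1 : ℝ) ≤ H := by exact_mod_cast hH
  have hH0 : (0 : ℝ) < H := by linarith
  have hCeH : Ce / H ≤ ε / 32 := by
    have h1 : 32 * Ce / ε ≤ H := by
      rw [hHd]
      push_cast
      linarith [Nat.le_ceil (32 * Ce / ε)]
    rw [div_le_iff₀ hH0]
    rw [div_le_iff₀ hε] at h1
    linarith
  obtain ⟨L, hL⟩ : ∃ L : ℝ, L = 32 * Ce / ε + C0 + 5 := ⟨_, rfl⟩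
  have hCeε : 0 < 32 * Ce / ε := by positivity
  obtain ⟨θ, hθd⟩ : ∃ θ : ℝ, θ = Real.exp (-L) := ⟨_, rfl⟩
  have hθ0 : 0 < θ := by rw [hθd]; exact Real.exp_pos _
  have hθ1 : θ < 1 / 20 := by
    have h1 : θ ≤ Real.exp (-5) := by
      rw [hθd, Real.exp_le_exp]
      linarith
    have h2 : Real.exp (-5) * Real.exp 5 = 1 := by rw [← Real.exp_add]; norm_num
    have h3 : (20 : ℝ) < Real.exp 5 := by
      have h4 : Real.exp 5 = Real.exp 1 ^ 5 := by rw [← Real.exp_nat_mul]; norm_num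
      rw [h4]
      have h5 : (2.7 : ℝ) < Real.exp 1 := lt_trans (by norm_num) Real.exp_one_gt_d9
      calc (20 : ℝ) < 2.7 ^ 5 := by norm_num
        _ ≤ Real.exp 1 ^ 5 := pow_le_pow_left₀ (by norm_num) h5.le 5
    have h4 : Real.exp (-5) < 1 / 20 := by
      rw [lt_div_iff₀ (by norm_num)]
      have := Real.exp_pos (-5)
      nlinarith
    linarith
  have hlogθ : Real.log θ = -L := by rw [hθd, Real.log_exp]
  obtain ⟨K, hKd⟩ : ∃ K : ℕ, K = ⌈2 / θ ^ 2⌉₊ := ⟨_, rfl⟩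
  have hK2 : 2 / θ ^ 2 ≤ K := by rw [hKd]; exact Nat.le_ceil _
  have hK0 : (0 : ℝ) < K := lt_of_lt_of_le (by positivity) hK2
  have hK : 1 ≤ K := by exact_mod_cast hK0
  obtain ⟨δp, Cp, Xp, hδp, hCp, hXp, hhp⟩ := hp K hK
  refine ⟨min (min δs δp) 1, lt_min (lt_min hδs hδp) one_pos, min_le_right _ _, ?_⟩
  obtain ⟨κ, hκd⟩ : ∃ κ : ℝ, κ = ε / (8 * H * Cs) := ⟨_, rfl⟩
  have hκ0 : 0 < κ := by rw [hκd]; positivity
  obtain ⟨η, hηd⟩ : ∃ η : ℝ, η = Real.sqrt (ε * κ / (2 * H * Cp)) := ⟨_, rfl⟩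
  have hη0 : 0 < η := by rw [hηd]; exact Real.sqrt_pos.2 (by positivity)
  have hη2 : η ^ 2 = ε * κ / (2 * H * Cp) := by rw [hηd]; exact Real.sq_sqrt (by positivity)
  obtain ⟨An, Xt, hpt⟩ := ptU η hη0
  have hev : ∀ᶠ X : ℕ in Filter.atTop, (32 * Ce / ε + 2) / θ ^ 2 ≤ Real.log X ∧ Xs ≤ X ∧ Xp ≤ X ∧ Xt ≤ X := by
    refine ((Real.tendsto_log_atTop.comp tendsto_natCast_atTop_atTop).eventually_ge_atTop _).and ?_
    refine (tendsto_natCast_atTop_atTop.eventually_ge_atTop Xs).and ?_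
    exact (tendsto_natCast_atTop_atTop.eventually_ge_atTop Xp).and (Filter.eventually_ge_atTop Xt)
  obtain ⟨X₀, hX₀⟩ := Filter.eventually_atTop.1 hev
  refine ⟨An, X₀, fun X hXX f hf hN U hU hUT hvol => ?_⟩
  obtain ⟨g1, g2, g3, g4⟩ := hX₀ X hXX
  have hX1 : (1 : ℝ) ≤ X := le_trans hXs g2
  have hX0 : (0 : ℝ) < X := by linarith
  obtain ⟨x, hxd⟩ : ∃ x : ℝ, x = Real.log X := ⟨_, rfl⟩
  rw [← hxd] at g1
  have hexp : Real.exp x = X := by rw [hxd, Real.exp_log hX0]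
  have hθ2 : 0 < θ ^ 2 := by positivity
  have hx1 : 32 * Ce / ε + 2 ≤ θ ^ 2 * x := by
    rw [div_le_iff₀ hθ2] at g1
    linarith
  have hx2 : 2 ≤ θ ^ 2 * x := by linarith
  obtain ⟨a, had⟩ : ∃ a : ℕ, a = ⌈(H : ℝ) * (θ ^ 2 * x)⌉₊ := ⟨_, rfl⟩
  obtain ⟨b, hbd⟩ : ∃ b : ℕ, b = ⌊(H : ℝ) * (θ * x)⌋₊ := ⟨_, rfl⟩
  obtain ⟨q1, q2, q3, q4, q5, q6, q7⟩ := fin_par θ x H a b hθ0 hθ1 hH hx2 had hbd
  have hx0 : 0 < x := by linarith
  have hblk := fun v (hv : v ∈ Ico a b) => fin_blk θ x H a b X v hθ0 hθ1 hH hx2 q7 hexp q4 q5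
    (mem_Ico.1 hv).1 (mem_Ico.1 hv).2
  have hXnat : 1 ≤ X := by exact_mod_cast hX1
  have hXx : x ≤ X := by
    rw [← hexp]
    linarith [Real.add_one_le_exp x]
  -- the error
  have hsum : 32 * Ce / ε ≤ ∑ p ∈ PR H a b, 1 / (p : ℝ) := by
    refine le_trans ?_ (hprl H a b hH q1 q2)
    rw [hlogθ] at q3
    linarith
  have hsum0 : 0 < ∑ p ∈ PR H a b, 1 / (p : ℝ) := lt_of_lt_of_le hCeε hsum
  have hEb : EE H b ≤ X := by
    have h1 : (EE H b : ℝ) ≤ X := by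
      unfold EE
      refine (Nat.floor_le (Real.exp_pos _).le).trans ?_
      rw [← hexp, Real.exp_le_exp]
      have : θ * x ≤ 1 / 20 * x := mul_le_mul_of_nonneg_right hθ1.le hx0.le
      linarith
    exact_mod_cast h1
  have he := herr f H a b X ((X : ℝ) / 2) hf hH (by omega) q2 hXnat hEb (by linarith) (by linarith) hsum0
  have he1 : Ce * (1 / (∑ p ∈ PR H a b, 1 / (p : ℝ)) + Real.exp (-((a : ℝ) / H)) + 1 / H + 1 / X) ≤ ε / 8 := by
    have r1 : Ce * (1 / (∑ p ∈ PR H a b, 1 / (p : ℝ))) ≤ ε / 32 := by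
      rw [mul_one_div, div_le_iff₀ hsum0]
      rw [div_le_iff₀ hε] at hsum
      linarith
    have r2 : Ce * Real.exp (-((a : ℝ) / H)) ≤ ε / 32 := by
      have h1 : 32 * Ce / ε ≤ Real.exp ((a : ℝ) / H) := by
        linarith [Real.add_one_le_exp ((a : ℝ) / H)]
      rw [Real.exp_neg, ← div_eq_mul_inv, div_le_iff₀ (Real.exp_pos _)]
      rw [div_le_iff₀ hε] at h1
      linarith
    have r3 : Ce * (1 / (H : ℝ)) ≤ ε / 32 := by rw [mul_one_div]; exact hCeH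
    have r4 : Ce * (1 / (X : ℝ)) ≤ ε / 32 := by
      have h1 : θ ^ 2 * x ≤ x := by
        have h2 : θ ^ 2 ≤ 1 := by nlinarith
        calc θ ^ 2 * x ≤ 1 * x := mul_le_mul_of_nonneg_right h2 hx0.le
          _ = x := one_mul x
      have h2 : 32 * Ce / ε ≤ X := by linarith
      rw [mul_one_div, div_le_iff₀ hX0]
      rw [div_le_iff₀ hε] at h2
      linarith
    calc Ce * (1 / (∑ p ∈ PR H a b, 1 / (p : ℝ)) + Real.exp (-((a : ℝ) / H)) + 1 / H + 1 / X)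
        = Ce * (1 / (∑ p ∈ PR H a b, 1 / (p : ℝ))) + Ce * Real.exp (-((a : ℝ) / H)) +
          Ce * (1 / (H : ℝ)) + Ce * (1 / (X : ℝ)) := by ring
      _ ≤ ε / 8 := by linarith
  -- the volumes
  have hvs : volume U ≤ ENNReal.ofReal ((X : ℝ) ^ δs) := hvol.trans (ENNReal.ofReal_le_ofReal
    (Real.rpow_le_rpow_of_exponent_le hX1 ((min_le_left _ _).trans (min_le_left _ _))))
  have hvp : volume U ≤ ENNReal.ofReal ((X : ℝ) ^ δp) := hvol.trans (ENNReal.ofReal_le_ofReal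
    (Real.rpow_le_rpow_of_exponent_le hX1 ((min_le_left _ _).trans (min_le_right _ _))))
  have hm2 : ∀ v ∈ Ico a b, ∫ t in U, ‖mv f H a b X v t‖ ^ 2 ≤ Cs := by
    intro v hv
    obtain ⟨s1, s2, s3, s4, s5⟩ := hblk v hv
    refine hhs X U (mco f H a b) (lo H X v) (hi H X v) g2 hU hUT hvs ?_ ?_ s2
    · intro n
      unfold mco
      rw [norm_div]
      have h1 : ‖((om H a b n : ℂ) + 1)‖ = (om H a b n : ℝ) + 1 := by
        have : ((om H a b n : ℂ) + 1) = (((om H a b n + 1 : ℕ)) : ℂ) := by push_cast; rfl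
        rw [this, Complex.norm_natCast]
        push_cast
        rfl
      rw [h1, div_le_one (by positivity)]
      have h2 : (0 : ℝ) ≤ (om H a b n : ℝ) := Nat.cast_nonneg _
      linarith [hf.bd n]
    · refine le_trans (le_of_eq ?_) s1
      rw [Real.rpow_def_of_pos hX0, ← hxd]
      congr 1
      ring
  have hp2 : ∀ v ∈ Ico a b, ∫ t in U, ‖pv f H v t‖ ^ 2 ≤ Cp / x ^ 2 := by
    intro v hv
    obtain ⟨s1, s2, s3, s4, s5⟩ := hblk v hv
    have h1 := hhp X U f (EE H v) (EE H (v + 1)) g3 hU hUT hvp hf.bd (by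
      refine le_trans ?_ s3
      rw [Real.rpow_def_of_pos hX0, ← hxd, Real.exp_le_exp]
      have h2 : 1 / (K : ℝ) ≤ θ ^ 2 / 2 := by
        rw [div_le_div_iff₀ hK0 (by norm_num)]
        rw [div_le_iff₀ hθ2] at hK2
        linarith
      calc x * (1 / (K : ℝ)) ≤ x * (θ ^ 2 / 2) := mul_le_mul_of_nonneg_left h2 hx0.le
        _ = θ ^ 2 * x / 2 := by ring) s4 s5
    rw [← hxd] at h1
    exact h1
  have hcard : (((Ico a b).card : ℕ) : ℝ) ≤ H * x := by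
    rw [Nat.card_Ico]
    refine le_trans ?_ q6
    exact_mod_cast Nat.sub_le _ _
  have hmain := fin_meas (fun t => ds f X (6 * X) t) (fun v t => pv f H v t) (fun v t => mv f H a b X v t)
    (Ico a b) U ((X : ℝ) / 2) (ε / 8) Cs (Cp / x ^ 2) η (κ / x) (H * x) hU hUT (by positivity)
    (fin_ds_cont f X (6 * X)) (fin_pv_cont f H) (fun v => fin_ds_cont _ _ _) (by positivity) hCs.le
    (by positivity) hcard (fun t ht => hpt X g4 f hf hN t ht) (he.trans he1) hm2 hp2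
  refine hmain.trans (le_of_eq ?_)
  rw [hη2, hκd]
  field_simp
  ring

theorem coreU (ε : ℝ) (hε : 0 < ε) (hε1 : ε ≤ 1) (L : ℕ) (hL : 1 ≤ L) : ∃ h₀ : ℕ, ∀ h : ℕ, h₀ ≤ h →
    ∃ (An : ℝ) (X₀ : ℕ), ∀ X : ℕ, X₀ ≤ X → ∀ f : ℕ → ℂ, OB f → UN An X f →
    ∫ t in (-((L : ℝ) * X / h))..((L : ℝ) * X / h), ‖ds f X (6 * X) t‖ ^ 2 ≤ ε := by
  obtain ⟨Ce, hCe, herr⟩ := err
  obtain ⟨C0, hC0, hprl⟩ := prl
  obtain ⟨Cv, hCv, hlv1⟩ := lv1
  obtain ⟨Cj, hCj, hlvj⟩ := lvj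
  obtain ⟨δ, hδ, hδ1, An, X1, hX1⟩ := finU (ε / 4) (by positivity) (by linarith)
  obtain ⟨α, C1, hα, hα2, hC1, hum⟩ := umj δ hδ hδ1
  obtain ⟨D, hDd⟩ : ∃ D : ℝ, D = 64 * Ce / ε := ⟨_, rfl⟩
  have hD0 : 0 < D := by rw [hDd]; positivity
  have hCD : Ce = ε / 64 * D := by rw [hDd]; field_simp
  obtain ⟨Hs, hHs⟩ : ∃ Hs : ℕ, Hs = ⌈D⌉₊ + 2 := ⟨_, rfl⟩
  have hHs1 : 1 ≤ Hs := by omega
  have hHsD : D ≤ Hs := by
    rw [hHs]
    push_cast
    linarith [Nat.le_ceil D]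
  obtain ⟨A, hAd⟩ : ∃ A : ℕ, A = ⌈Real.exp (D + C0)⌉₊ + 2 := ⟨_, rfl⟩
  have hA2 : 2 ≤ A := by omega
  have hA0 : (0 : ℝ) < A := by
    have : 0 < A := by omega
    exact_mod_cast this
  have hAD : D + C0 ≤ Real.log A := by
    rw [Real.le_log_iff_exp_le hA0, hAd]
    push_cast
    linarith [Nat.le_ceil (Real.exp (D + C0))]
  obtain ⟨B1, hB1⟩ := pin α (ε / (64 * Cj)) Hs A hα (by positivity) hHs1 hA2
  obtain ⟨B2, hB2⟩ := pin1 α (ε / (64 * Cv)) Hs A hα (by positivity) hHs1 hA2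
  obtain ⟨B3, hB3⟩ := stp A C1 hA2 hC1
  obtain ⟨B0, hB0⟩ : ∃ B0 : ℕ, B0 = B1 + B2 + B3 + 3 + 2 * Hs := ⟨_, rfl⟩
  have hL0 : (0 : ℝ) < L := by
    have : 0 < L := by omega
    exact_mod_cast this
  refine ⟨⌈L * Real.exp ((A : ℝ) ^ 2 * (B0 + 1))⌉₊ + 2 * L + 1, fun h hh => ?_⟩
  have hhR : (L : ℝ) * Real.exp ((A : ℝ) ^ 2 * (B0 + 1)) ≤ h := by
    refine (Nat.le_ceil _).trans ?_
    exact_mod_cast (by omega : ⌈L * Real.exp ((A : ℝ) ^ 2 * (B0 + 1))⌉₊ ≤ h)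
  have hh2 : 2 * (L : ℝ) ≤ h := by exact_mod_cast (by omega : 2 * L ≤ h)
  have hh0 : (0 : ℝ) < h := by linarith
  obtain ⟨B, hBd⟩ : ∃ B : ℕ, B = ⌊Real.log (h / L) / (A : ℝ) ^ 2⌋₊ := ⟨_, rfl⟩
  have hA20 : (0 : ℝ) < (A : ℝ) ^ 2 := by positivity
  have hhl : (A : ℝ) ^ 2 * (B0 + 1) ≤ Real.log (h / L) := by
    rw [Real.le_log_iff_exp_le (by positivity), le_div_iff₀ hL0]
    linarith
  have hhl0 : 0 ≤ Real.log (h / L) := by
    refine le_trans ?_ hhl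
    positivity
  have hBB : B0 ≤ B := by
    rw [hBd]
    apply Nat.le_floor
    rw [le_div_iff₀ hA20]
    nlinarith
  have hB3' : 3 ≤ B := by omega
  have hAB : (qj A B 1 : ℝ) ≤ Real.log (h / L) := by
    have h1 : (B : ℝ) ≤ Real.log (h / L) / (A : ℝ) ^ 2 := by
      rw [hBd]
      exact Nat.floor_le (by positivity)
    rw [le_div_iff₀ hA20] at h1
    unfold qj
    push_cast
    norm_num
    linarith
  obtain ⟨X2, hX2⟩ := hum Hs A hHs1 hA2
  obtain ⟨X3, hX3⟩ := hB3 B (by omega)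
  have hlim1 : ∀ᶠ X : ℕ in Filter.atTop, (Real.log (Real.log X)) ^ 4 ≤ Real.log X := by
    have h1 : (fun y : ℝ => (Real.log y) ^ 4) =o[Filter.atTop] fun y => y := by
      exact Real.isLittleO_pow_log_id_atTop
    have h2 := h1.bound (show (0 : ℝ) < 1 by norm_num)
    have h3 : ∀ᶠ y : ℝ in Filter.atTop, (Real.log y) ^ 4 ≤ y := by
      filter_upwards [h2, Filter.eventually_ge_atTop 0] with y hy hy0
      rw [Real.norm_eq_abs, Real.norm_eq_abs, abs_of_nonneg hy0, one_mul] at hy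
      exact (le_abs_self _).trans hy
    exact (Real.tendsto_log_atTop.comp tendsto_natCast_atTop_atTop).eventually h3
  have hlim2 : ∀ᶠ X : ℕ in Filter.atTop, 2 * Ce * Real.log X ≤ ε / 2 * X := by
    have h1 : (fun y : ℝ => Real.log y) =o[Filter.atTop] fun y => y := Real.isLittleO_log_id_atTop
    have h2 := h1.bound (show (0 : ℝ) < ε / 2 / (2 * Ce) by positivity)
    have h3 : ∀ᶠ y : ℝ in Filter.atTop, 2 * Ce * Real.log y ≤ ε / 2 * y := by
      filter_upwards [h2, Filter.eventually_ge_atTop 0] with y hy hy0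
      rw [Real.norm_eq_abs, Real.norm_eq_abs, abs_of_nonneg hy0] at hy
      have h4 := (le_abs_self _).trans hy
      calc 2 * Ce * Real.log y ≤ 2 * Ce * (ε / 2 / (2 * Ce) * y) :=
            mul_le_mul_of_nonneg_left h4 (by positivity)
        _ = ε / 2 * y := by field_simp
    exact tendsto_natCast_atTop_atTop.eventually h3
  obtain ⟨X4, hX4⟩ := Filter.eventually_atTop.1 (hlim1.and hlim2)
  refine ⟨An, X1 + X2 + X3 + X4 + h + 1, fun X hX f hf hN => ?_⟩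
  obtain ⟨J, hJ1, hJ2, hJ3⟩ := hX3 X (by omega)
  obtain ⟨hY1, hY2⟩ := hX4 X (by omega)
  have hXh : (h : ℝ) ≤ X := by exact_mod_cast (by omega : h ≤ X)
  have hX0 : (0 : ℝ) < X := by linarith
  have hXn : 1 ≤ X := by omega
  obtain ⟨T, hTd⟩ : ∃ T : ℝ, T = (L : ℝ) * X / h := ⟨_, rfl⟩
  have hL1 : (1 : ℝ) ≤ L := by exact_mod_cast hL
  have hT1 : 1 ≤ T := by
    rw [hTd, le_div_iff₀ hh0]
    nlinarith
  have hT2 : T ≤ X / 2 := by
    rw [hTd, div_le_div_iff₀ hh0 (by norm_num)]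
    nlinarith
  have hTX : T ≤ X := by linarith
  have hTq : T * Real.exp (qj A B 1) ≤ X := by
    have h1 : Real.exp (qj A B 1) ≤ h / L := by
      rw [← Real.le_log_iff_exp_le (by positivity)]
      exact hAB
    calc T * Real.exp (qj A B 1) ≤ T * (h / L) := mul_le_mul_of_nonneg_left h1 (by linarith)
      _ = X := by rw [hTd]; field_simp
  have hqX : ∀ j, j ≤ J → Real.exp (qj A B j) ≤ X := by
    intro j hj1
    have h1 : (qj A B j : ℝ) ≤ qj A B J := by exact_mod_cast qj_mono A B hA2 (by omega) hj1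
    rw [← Real.le_log_iff_exp_le hX0]
    linarith
  have hJX : (J : ℝ) ≤ Real.log X := by
    have h1 : (J : ℝ) ≤ 2 ^ J := by exact_mod_cast (Nat.lt_two_pow_self (n := J)).le
    have h2 : ((2 ^ J : ℕ) : ℝ) ≤ qj A B J := by exact_mod_cast two_pow_le_qj A B J hA2 (by omega)
    push_cast at h2
    linarith
  rw [← hTd]
  obtain ⟨n, rfl⟩ : ∃ n, J = n + 1 := ⟨J - 1, by omega⟩
  have hlev := fun j (hj1 : 1 ≤ j) => core_lev Hs A B j hHs1 hA2 (by omega) hj1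
  have halj0 : ∀ j, 0 ≤ alj α j := by
    intro j
    unfold alj
    have : ((1 : ℝ) / 2) ^ j ≤ 1 := pow_le_one₀ (by norm_num) (by norm_num)
    nlinarith
  have halj1 : ∀ j, alj α j ≤ α := by
    intro j
    unfold alj
    have : (0 : ℝ) ≤ ((1 : ℝ) / 2) ^ j := by positivity
    nlinarith
  have halj2 : ∀ j, alj α j ≤ alj α (j + 1) := by
    intro j
    unfold alj
    have h1 : (0 : ℝ) ≤ ((1 : ℝ) / 2) ^ j := by positivity
    rw [pow_succ]
    nlinarith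
  have hmain := core_meas (fun t => ds f X (6 * X) t)
    (fun j t => ∑ v ∈ Ico (aj Hs B j) (bj Hs A B j), pv f (hj Hs j) v t * mv f (hj Hs j) (aj Hs B j) (bj Hs A B j) X v t)
    (fun j => {t : ℝ | Gd f (hj Hs j) (aj Hs B j) (bj Hs A B j) (alj α j) t}) T (ε / 4)
    (fun j => 3 * ε / 64 * (1 / 2) ^ j + Ce / X) (fun j => ε / 64 * (1 / 2) ^ j) n (by linarith)
    (core_ds_cont f X (6 * X))
    (fun j => continuous_finsetSum _ fun v _ => (core_pv_cont f _ v).mul (core_ds_cont _ _ _))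
    (fun j => core_gd_meas _ _ _ _ _) ?_ ?_ ?_ ?_
  · refine hmain.trans ?_
    have h1 : ∑ j ∈ Finset.Icc 1 n, (2 * (3 * ε / 64 * (1 / 2 : ℝ) ^ (j + 1) + Ce / X) + 2 * (ε / 64 * (1 / 2) ^ j)) =
        5 * ε / 64 * ∑ j ∈ Finset.Icc 1 n, (1 / 2 : ℝ) ^ j + n * (2 * (Ce / X)) := by
      rw [Finset.mul_sum]
      have h2 : (n : ℝ) * (2 * (Ce / X)) = ∑ j ∈ Finset.Icc 1 n, 2 * (Ce / X) := by
        rw [Finset.sum_const, Nat.card_Icc, nsmul_eq_mul]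
        simp
      rw [h2, ← Finset.sum_add_distrib]
      refine Finset.sum_congr rfl fun j _ => ?_
      rw [pow_succ]
      ring
    rw [h1]
    have h3 := core_half_sum n
    have h4 : 5 * ε / 64 * ∑ j ∈ Finset.Icc 1 n, (1 / 2 : ℝ) ^ j ≤ 5 * ε / 64 * 1 :=
      mul_le_mul_of_nonneg_left h3 (by positivity)
    have h5 : ((n : ℝ) + 1) * (2 * (Ce / X)) ≤ ε / 2 := by
      push_cast at hJX
      have h6 : ((n : ℝ) + 1) * (2 * Ce) ≤ ε / 2 * X := by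
        calc ((n : ℝ) + 1) * (2 * Ce) ≤ Real.log X * (2 * Ce) :=
              mul_le_mul_of_nonneg_right hJX (by positivity)
          _ = 2 * Ce * Real.log X := by ring
          _ ≤ ε / 2 * X := hY2
      calc ((n : ℝ) + 1) * (2 * (Ce / X)) = ((n : ℝ) + 1) * (2 * Ce) / X := by ring
        _ ≤ ε / 2 := by rw [div_le_iff₀ hX0]; exact h6
    have h7 : ((n : ℝ) + 1) * (2 * (Ce / X)) = n * (2 * (Ce / X)) + 2 * (Ce / X) := by ring
    rw [h7] at h5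
    norm_num
    linarith
  · intro j hj1
    obtain ⟨hj2, hj3⟩ := Finset.mem_Icc.1 hj1
    obtain ⟨q1, q2, q3, q4, q5, q6⟩ := hlev j hj2
    have hE : EE (hj Hs j) (bj Hs A B j) ≤ X := by
      have h1 : (EE (hj Hs j) (bj Hs A B j) : ℝ) ≤ X := by
        unfold EE
        rw [q5]
        exact (Nat.floor_le (Real.exp_pos _).le).trans (hqX j hj3)
      exact_mod_cast h1
    have hjp : (1 : ℝ) ≤ 2 ^ j := one_le_pow₀ (by norm_num)
    have hhalf : ((1 : ℝ) / 2) ^ j * 2 ^ j = 1 := by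
      rw [← mul_pow]
      norm_num
    have hsum : D * 2 ^ j ≤ ∑ p ∈ PR (hj Hs j) (aj Hs B j) (bj Hs A B j), 1 / (p : ℝ) := by
      refine le_trans ?_ (hprl (hj Hs j) (aj Hs B j) (bj Hs A B j) (by omega) q2 q3)
      rw [q6, Real.log_pow]
      push_cast
      have h1 : (2 : ℝ) ^ j * (D + C0) ≤ 2 ^ j * Real.log A := mul_le_mul_of_nonneg_left hAD (by positivity)
      have h2 : C0 ≤ 2 ^ j * C0 := by nlinarith
      linarith
    have hs0 : 0 < ∑ p ∈ PR (hj Hs j) (aj Hs B j) (bj Hs A B j), 1 / (p : ℝ) :=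
      lt_of_lt_of_le (by positivity) hsum
    refine (herr f (hj Hs j) (aj Hs B j) (bj Hs A B j) X T hf (by omega) (by omega) q3 hXn hE hT1 hTX hs0).trans ?_
    rw [q4]
    have key : ∀ y : ℝ, 0 < y → D * 2 ^ j ≤ y → Ce * (1 / y) ≤ ε / 64 * (1 / 2) ^ j := by
      intro y hy hDy
      rw [mul_one_div, div_le_iff₀ hy, hCD]
      calc ε / 64 * D = ε / 64 * (1 / 2) ^ j * (D * 2 ^ j) := by
            calc ε / 64 * D = ε / 64 * D * ((1 / 2) ^ j * 2 ^ j) := by rw [hhalf, mul_one]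
              _ = _ := by ring
        _ ≤ ε / 64 * (1 / 2) ^ j * y := mul_le_mul_of_nonneg_left hDy (by positivity)
    have r1 := key _ hs0 hsum
    have hp2 : Hs * 2 ^ j ≤ pj B j := core_two_pow B Hs j hHs1 (by omega) hj2
    have hp3 : (Hs : ℝ) * 2 ^ j ≤ pj B j := by exact_mod_cast hp2
    have hDH : D * 2 ^ j ≤ Hs * 2 ^ j := mul_le_mul_of_nonneg_right hHsD (by positivity)
    have r2 : Ce * Real.exp (-(pj B j : ℝ)) ≤ ε / 64 * (1 / 2) ^ j := by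
      have h1 : D * 2 ^ j ≤ Real.exp (pj B j : ℝ) := by
        linarith [Real.add_one_le_exp (pj B j : ℝ)]
      have h2 := key _ (Real.exp_pos _) h1
      rwa [Real.exp_neg, ← one_div]
    have r3 : Ce * (1 / (hj Hs j : ℝ)) ≤ ε / 64 * (1 / 2) ^ j := by
      refine key _ ?_ ?_
      · have : 0 < hj Hs j := by omega
        exact_mod_cast this
      · unfold hj
        push_cast
        linarith
    have r4 : Ce * (1 / (X : ℝ)) = Ce / X := mul_one_div _ _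
    calc Ce * (1 / (∑ p ∈ PR (hj Hs j) (aj Hs B j) (bj Hs A B j), 1 / (p : ℝ)) + Real.exp (-(pj B j : ℝ)) +
          1 / (hj Hs j : ℝ) + 1 / (X : ℝ))
        = Ce * (1 / (∑ p ∈ PR (hj Hs j) (aj Hs B j) (bj Hs A B j), 1 / (p : ℝ))) +
          Ce * Real.exp (-(pj B j : ℝ)) + Ce * (1 / (hj Hs j : ℝ)) + Ce * (1 / (X : ℝ)) := by ring
      _ ≤ 3 * ε / 64 * (1 / 2) ^ j + Ce / X := by rw [r4]; linarith
  · obtain ⟨q1, q2, q3, q4, q5, q6⟩ := hlev 1 le_rfl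
    refine (hlv1 f (hj Hs 1) (aj Hs B 1) (bj Hs A B 1) X (alj α 1) T _ hf (by omega) q3 hXn (halj0 1) hT1
      (by rw [q5]; exact hTq) (measurableSet_Icc.inter (core_gd_meas _ _ _ _ _)) Set.inter_subset_left
      (fun t ht => ht.2)).trans ?_
    rw [q4]
    have h1 := hB2 B (by omega)
    calc Cv * ((bj Hs A B 1 : ℝ) - aj Hs B 1) ^ 2 * Real.exp (-(2 * alj α 1 * (pj B 1 : ℝ)))
        = Cv * (((bj Hs A B 1 : ℝ) - aj Hs B 1) ^ 2 * Real.exp (-(2 * alj α 1 * (pj B 1 : ℝ)))) := by ring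
      _ ≤ Cv * (ε / (64 * Cv)) := mul_le_mul_of_nonneg_left h1 hCv.le
      _ = ε / 64 * (1 / 2) ^ 0 := by field_simp
  · intro j hj1
    obtain ⟨hj2, hj3⟩ := Finset.mem_Icc.1 hj1
    obtain ⟨q1, q2, q3, q4, q5, q6⟩ := hlev j hj2
    obtain ⟨p1, p2, p3, p4, p5, p6⟩ := hlev (j + 1) (by omega)
    refine (hlvj f (hj Hs j) (aj Hs B j) (bj Hs A B j) (hj Hs (j + 1)) (aj Hs B (j + 1)) (bj Hs A B (j + 1)) X
      (alj α j) (alj α (j + 1)) T _ hf q1 q2 q3 (by omega) p3 (halj0 j) (halj2 j) ((halj1 _).trans hα2) hXn hT1 hTX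
      ((measurableSet_Icc.diff (core_gd_meas _ _ _ _ _)).inter (core_gd_meas _ _ _ _ _))
      (Set.inter_subset_left.trans Set.sdiff_subset) (fun t ht => ⟨ht.2, ht.1.2⟩) _ rfl).trans ?_
    rw [p5, q4, p4, q5]
    have h1 := hB1 B (by omega) j hj2 _ rfl
    calc Cj * ((bj Hs A B (j + 1) : ℝ) - aj Hs B (j + 1)) ^ 2 * ((bj Hs A B j : ℝ) - aj Hs B j) *
          Real.exp (-(2 * (alj α (j + 1) - alj α j) * (pj B (j + 1) : ℝ)) + 3 * (qj A B j : ℝ) +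
            2 * ((qj A B (j + 1) : ℝ) / pj B j + 1) +
            (2 * ((qj A B (j + 1) : ℝ) / pj B j + 1) + 1) * Real.log ((qj A B (j + 1) : ℝ) / pj B j + 1 + 1))
        = Cj * (((bj Hs A B (j + 1) : ℝ) - aj Hs B (j + 1)) ^ 2 * ((bj Hs A B j : ℝ) - aj Hs B j) *
          Real.exp (-(2 * (alj α (j + 1) - alj α j) * (pj B (j + 1) : ℝ)) + 3 * (qj A B j : ℝ) +
            2 * ((qj A B (j + 1) : ℝ) / pj B j + 1) +
            (2 * ((qj A B (j + 1) : ℝ) / pj B j + 1) + 1) * Real.log ((qj A B (j + 1) : ℝ) / pj B j + 1 + 1))) := by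
          ring
      _ ≤ Cj * (ε / (64 * Cj) * (1 / 2) ^ j) := mul_le_mul_of_nonneg_left h1 hCj.le
      _ = ε / 64 * (1 / 2) ^ j := by field_simp
  · refine hX1 X (by omega) f hf hN _ (measurableSet_Icc.diff (core_gd_meas _ _ _ _ _)) ?_ ?_
    · refine Set.sdiff_subset.trans (Set.Icc_subset_Icc (by linarith) (by linarith))
    · exact hX2 f B (n + 1) X (alj α (n + 1)) T hf (by omega) hJ1 (by omega) (halj0 _) (halj1 _) hT1 hTX hJ2 hJ3

theorem winU (ε : ℝ) (hε : 0 < ε) (hε1 : ε ≤ 1) : ∃ h₀ : ℕ, ∀ h : ℕ, h₀ ≤ h → ∃ (An : ℝ) (X₀ : ℕ), ∀ X : ℕ, X₀ ≤ X → ∀ f : ℕ → ℂ, OB f → UN An X f →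
    ∫ y in (Real.log X)..(Real.log (2 * X)), ‖Pool.Agent.H43.SI.Sd f (6 * X) ((h : ℝ) / X) y‖ ^ 2 ≤ ε * (h : ℝ) ^ 2 := by
  obtain ⟨Cp, hCp, hp⟩ := Pool.Agent.H43.SI.par
  obtain ⟨Ct, hCt, ht⟩ := tl
  obtain ⟨L, hL⟩ : ∃ L : ℕ, 32 * Cp * Ct / ε + 1 ≤ L := exists_nat_ge _
  have hq : 0 ≤ 32 * Cp * Ct / ε := by positivity
  have hL1' : (1 : ℝ) ≤ L := by linarith
  have hL1 : 1 ≤ L := by exact_mod_cast hL1'
  have hLε : Cp * Ct * (1 / (L : ℝ) ^ 2) ≤ ε / 32 := by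
    have h1 : 32 * Cp * Ct / ε ≤ (L : ℝ) ^ 2 := by nlinarith
    rw [div_le_iff₀ hε] at h1
    rw [mul_one_div, div_le_iff₀ (by positivity)]
    linarith
  obtain ⟨hc, hcore⟩ := coreU (min 1 (ε / (16 * Cp))) (by positivity) (min_le_left _ _) L hL1
  obtain ⟨h1, hh1⟩ : ∃ h1 : ℕ, 32 * Cp * Ct / ε + 1 ≤ h1 := exists_nat_ge _
  refine ⟨max hc h1, fun h hh => ?_⟩
  obtain ⟨A1, X1, hX1⟩ := hcore h ((le_max_left _ _).trans hh)
  obtain ⟨A2, X2, hX2⟩ := pt0U (ε / 100) (by positivity)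
  refine ⟨max A1 A2, max (max X1 X2) (max h 1), fun X hX f hf hN => ?_⟩
  have hNA : UN A1 X f := fun t ht => (le_max_left _ _).trans (hN t ht)
  have hNB : UN A2 X f := fun t ht => (le_max_right _ _).trans (hN t ht)
  have hXX1 : X1 ≤ X := (le_max_left _ _).trans ((le_max_left _ _).trans hX)
  have hXX2 : X2 ≤ X := (le_max_right _ _).trans ((le_max_left _ _).trans hX)
  have hXh : h ≤ X := (le_max_left _ _).trans ((le_max_right _ _).trans hX)
  have hX1' : 1 ≤ X := (le_max_right _ _).trans ((le_max_right _ _).trans hX)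
  have hh' : 32 * Cp * Ct / ε + 1 ≤ (h : ℝ) :=
    hh1.trans (by exact_mod_cast (le_max_right _ _).trans hh)
  have hhp : (1 : ℝ) ≤ h := by linarith
  have hh1'' : 1 ≤ h := by exact_mod_cast hhp
  have hXr : (1 : ℝ) ≤ X := by exact_mod_cast hX1'
  have hXhr : (h : ℝ) ≤ X := by exact_mod_cast hXh
  have hhε : Cp * Ct * (1 / ((L : ℝ) * h)) ≤ ε / 32 := by
    have h2 : 32 * Cp * Ct / ε ≤ (L : ℝ) * h := by nlinarith
    rw [div_le_iff₀ hε] at h2
    rw [mul_one_div, div_le_iff₀ (by positivity)]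
    linarith
  set δ : ℝ := (h : ℝ) / X with hδ
  have hδ0 : 0 < δ := by positivity
  have hδ1 : δ ≤ 1 := by
    rw [hδ, div_le_one (by linarith)]
    exact hXhr
  set g : ℕ → ℂ := fun n => if n ∈ Ioc X (6 * X) then f n else 0 with hg
  -- the mean square of the differences
  have hA : ∫ y in (Real.log X)..(Real.log (2 * X)), ‖Pool.Agent.H43.SI.Sd g (6 * X) δ y / δ -
      Pool.Agent.H43.SI.Sd g (6 * X) 1 y / (1 : ℝ)‖ ^ 2 ≤ ε / 8 * X ^ 2 := by
    refine ((hp g (6 * X) X δ 1 hXr hδ0 hδ1 le_rfl).2).trans ?_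
    have e1 : ∀ t : ℝ, ∑ n ∈ Icc 1 (6 * X), g n * (n : ℂ) ^ (-(1 + (t : ℂ) * Complex.I)) =
        ds f X (6 * X) t := fun t => win_ds f X t
    simp only [e1]
    have h3 := ht f X h L hf hL1 hh1'' hXh
    have h4 := hX1 X hXX1 f hf hNA
    have h5 : min 1 (ε / (16 * Cp)) ≤ ε / (16 * Cp) := min_le_right _ _
    have h6 : ∫ t : ℝ, ‖ds f X (6 * X) t‖ ^ 2 * Pool.Agent.H43.SI.mul δ 1 t ≤
        ε / (16 * Cp) + Ct * (1 / ((L : ℝ) * h) + 1 / (L : ℝ) ^ 2) :=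
      h3.trans (add_le_add (h4.trans h5) le_rfl)
    calc Cp * (X : ℝ) ^ 2 * ∫ t : ℝ, ‖ds f X (6 * X) t‖ ^ 2 * Pool.Agent.H43.SI.mul δ 1 t
        ≤ Cp * (X : ℝ) ^ 2 * (ε / (16 * Cp) + Ct * (1 / ((L : ℝ) * h) + 1 / (L : ℝ) ^ 2)) :=
          mul_le_mul_of_nonneg_left h6 (by positivity)
      _ = (ε / 16 + Cp * Ct * (1 / ((L : ℝ) * h)) + Cp * Ct * (1 / (L : ℝ) ^ 2)) *
            (X : ℝ) ^ 2 := by
          field_simp
          ring
      _ ≤ (ε / 16 + ε / 32 + ε / 32) * (X : ℝ) ^ 2 := by gcongr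
      _ = ε / 8 * (X : ℝ) ^ 2 := by ring
  have hlog : Real.log (2 * X) - Real.log X = Real.log 2 := by
    rw [Real.log_mul (by norm_num) (by linarith)]
    ring
  have hlog2 : Real.log 2 ≤ 1 := by
    have := Real.log_two_lt_d9
    linarith
  have hlog0 : 0 ≤ Real.log 2 := Real.log_nonneg (by norm_num)
  have hB : ∀ y ∈ Set.Icc (Real.log X) (Real.log (2 * X)),
      ‖Pool.Agent.H43.SI.Sd f (6 * X) δ y‖ ^ 2 ≤
        δ ^ 2 * (2 * ‖Pool.Agent.H43.SI.Sd g (6 * X) δ y / δ -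
          Pool.Agent.H43.SI.Sd g (6 * X) 1 y / (1 : ℝ)‖ ^ 2 + ε / 4 * X ^ 2) := by
    intro y hy
    have e1 : Pool.Agent.H43.SI.Sd g (6 * X) δ y = Pool.Agent.H43.SI.Sd f (6 * X) δ y :=
      win_cut f X hX1' δ y hy.1
    have e2 : Pool.Agent.H43.SI.Sd g (6 * X) 1 y = Pool.Agent.H43.SI.Sd f (6 * X) 1 y :=
      win_cut f X hX1' 1 y hy.1
    have h7 := win_long f X hX1' (ε / 100) (by positivity)
      (fun N hN' => hX2 X hXX2 f hf hNB N hN') y hy.1 hy.2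
    rw [← e2] at h7
    rw [← e1]
    set A := Pool.Agent.H43.SI.Sd g (6 * X) δ y with hAdef
    set B := Pool.Agent.H43.SI.Sd g (6 * X) 1 y with hBdef
    have h8 : ‖A‖ = δ * ‖A / δ‖ := by
      rw [norm_div, Complex.norm_real, Real.norm_of_nonneg hδ0.le]
      field_simp
    have h9 : ‖A / δ‖ ≤ ‖A / δ - B / (1 : ℝ)‖ + ‖B‖ := by
      have e3 : A / δ = (A / δ - B / (1 : ℝ)) + B := by
        push_cast
        ring
      calc ‖A / δ‖ = ‖(A / δ - B / (1 : ℝ)) + B‖ := by rw [← e3]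
        _ ≤ _ := norm_add_le _ _
    have h10 : ‖B‖ ^ 2 ≤ ε / 8 * X ^ 2 := by
      calc ‖B‖ ^ 2 ≤ (12 * (ε / 100) * X) ^ 2 := pow_le_pow_left₀ (norm_nonneg _) h7 2
        _ = 144 / 10000 * (ε * ε) * X ^ 2 := by ring
        _ ≤ 144 / 10000 * (ε * 1) * X ^ 2 := by gcongr
        _ ≤ ε / 8 * X ^ 2 := by
          have : 0 ≤ ε * (X : ℝ) ^ 2 := by positivity
          nlinarith
    have h11 : ‖A / δ‖ ^ 2 ≤ 2 * ‖A / δ - B / (1 : ℝ)‖ ^ 2 + 2 * ‖B‖ ^ 2 := by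
      have h12 := pow_le_pow_left₀ (norm_nonneg _) h9 2
      nlinarith [sq_nonneg (‖A / δ - B / (1 : ℝ)‖ - ‖B‖)]
    rw [h8, mul_pow]
    refine mul_le_mul_of_nonneg_left ?_ (sq_nonneg δ)
    linarith
  have hle : Real.log X ≤ Real.log (2 * X) := by linarith
  calc ∫ y in (Real.log X)..(Real.log (2 * X)), ‖Pool.Agent.H43.SI.Sd f (6 * X) δ y‖ ^ 2
      ≤ ∫ y in (Real.log X)..(Real.log (2 * X)),
          δ ^ 2 * (2 * ‖Pool.Agent.H43.SI.Sd g (6 * X) δ y / δ -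
          Pool.Agent.H43.SI.Sd g (6 * X) 1 y / (1 : ℝ)‖ ^ 2 + ε / 4 * X ^ 2) := by
        refine intervalIntegral.integral_mono_on hle (win_ii' f (6 * X) δ _ _) ?_ hB
        exact (((win_ii g (6 * X) δ 1 _ _).const_mul 2).add intervalIntegrable_const).const_mul _
    _ = δ ^ 2 * (2 * (∫ y in (Real.log X)..(Real.log (2 * X)),
          ‖Pool.Agent.H43.SI.Sd g (6 * X) δ y / δ -
          Pool.Agent.H43.SI.Sd g (6 * X) 1 y / (1 : ℝ)‖ ^ 2) +
            Real.log 2 * (ε / 4 * X ^ 2)) := by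
        rw [intervalIntegral.integral_const_mul,
          intervalIntegral.integral_add ((win_ii g (6 * X) δ 1 _ _).const_mul 2)
            intervalIntegrable_const, intervalIntegral.integral_const_mul,
          intervalIntegral.integral_const, hlog, smul_eq_mul]
    _ ≤ δ ^ 2 * (2 * (ε / 8 * X ^ 2) + 1 * (ε / 4 * X ^ 2)) := by
        refine mul_le_mul_of_nonneg_left ?_ (sq_nonneg δ)
        refine add_le_add (mul_le_mul_of_nonneg_left hA (by norm_num)) ?_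
        exact mul_le_mul_of_nonneg_right hlog2 (by positivity)
    _ = ε / 2 * (δ * X) ^ 2 := by ring
    _ = ε / 2 * (h : ℝ) ^ 2 := by
        rw [hδ, div_mul_cancel₀ _ (by linarith)]
    _ ≤ ε * (h : ℝ) ^ 2 := by
        have : 0 ≤ ε * (h : ℝ) ^ 2 := by positivity
        nlinarith

theorem addU (ε : ℝ) (hε : 0 < ε) (hε1 : ε ≤ 1) : ∃ H₀ : ℕ, ∀ H : ℕ, H₀ ≤ H → ∃ (An : ℝ) (X₀ : ℕ), ∀ X : ℕ, X₀ ≤ X → ∀ f : ℕ → ℂ, OB f → UN An X f →
    ∑ n ∈ Ioc X (2 * X), ‖∑ j ∈ range H, f (n + j)‖ ≤ ε * H * X := by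
  obtain ⟨h₀, hwin⟩ := winU (ε ^ 2 / 16) (by positivity) (by nlinarith)
  set h : ℕ := max h₀ 1 with hh
  have hh1 : 1 ≤ h := le_max_right _ _
  have hh0 : (0 : ℝ) < h := by exact_mod_cast hh1
  refine ⟨⌈32 * (h : ℝ) / ε⌉₊ + 1, ?_⟩
  intro H hH
  obtain ⟨An, X₀, hX₀⟩ := hwin h (le_max_left _ _)
  refine ⟨An, max X₀ (max h (max ⌈4 * (H : ℝ) / ε⌉₊ (max H 1))), ?_⟩
  intro X hX f hf hfN
  have hX1 : X₀ ≤ X := (le_max_left _ _).trans hX
  have hX2 : h ≤ X := ((le_max_left _ _).trans (le_max_right _ _)).trans hX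
  have hX3 : ⌈4 * (H : ℝ) / ε⌉₊ ≤ X :=
    ((le_max_left _ _).trans ((le_max_right _ _).trans (le_max_right _ _))).trans hX
  have hX4 : H ≤ X :=
    ((le_max_left _ _).trans ((le_max_right _ _).trans ((le_max_right _ _).trans (le_max_right _ _)))).trans hX
  have hX5 : 1 ≤ X :=
    ((le_max_right _ _).trans ((le_max_right _ _).trans ((le_max_right _ _).trans (le_max_right _ _)))).trans hX
  have hX0 : (0 : ℝ) < X := by exact_mod_cast hX5
  have hH1 : 1 ≤ H := by omega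
  have hH0 : (0 : ℝ) < H := by exact_mod_cast hH1
  have hHh : 32 * (h : ℝ) ≤ ε * H := by
    have h1 : 32 * (h : ℝ) / ε ≤ H := (Nat.le_ceil _).trans (by exact_mod_cast (by omega : ⌈32 * (h : ℝ) / ε⌉₊ ≤ H))
    rw [div_le_iff₀ hε] at h1
    linarith
  have hXH : 4 * (H : ℝ) ≤ ε * X := by
    have h1 : 4 * (H : ℝ) / ε ≤ X := (Nat.le_ceil _).trans (by exact_mod_cast hX3)
    rw [div_le_iff₀ hε] at h1
    linarith
  have hw := hX₀ X hX1 f hf hfN
  set δ : ℝ := (h : ℝ) / X with hδ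
  have hδ0 : 0 < δ := by positivity
  set g : ℝ → ℝ := fun y => ‖Pool.Agent.H43.SI.Sd f (6 * X) δ y‖ with hg
  have hgi : Integrable g := (ad_Sd_int f (6 * X) δ).norm
  have hg0 : ∀ y, 0 ≤ g y := fun y => norm_nonneg _
  -- Cauchy-Schwarz
  have hlog : Real.log X < Real.log (2 * X) := Real.log_lt_log hX0 (by linarith)
  have hlog2 : Real.log (2 * X) - Real.log X ≤ 1 := by
    rw [Real.log_mul (by norm_num) hX0.ne']
    have := Real.log_two_lt_d9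
    linarith
  set I := ∫ y in (Real.log X)..(Real.log (2 * X)), g y with hI
  have hI0 : 0 ≤ I := intervalIntegral.integral_nonneg hlog.le fun y _ => hg0 y
  have hIle : I ≤ ε / 4 * h := by
    have hg2 : IntervalIntegrable (fun y => g y ^ 2) volume (Real.log X) (Real.log (2 * X)) := by
      rw [intervalIntegrable_iff_integrableOn_Ioc_of_le hlog.le]
      have hb : ∀ᵐ y ∂(volume.restrict (Set.Ioc (Real.log X) (Real.log (2 * X)))), ‖g y ^ 2‖ ≤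
          (∑ m ∈ Icc 1 (6 * X), ‖f m‖) ^ 2 := by
        refine Filter.Eventually.of_forall fun y => ?_
        rw [norm_pow, Real.norm_of_nonneg (hg0 y)]
        exact pow_le_pow_left₀ (hg0 y) (ad_Sd_norm f (6 * X) δ y) 2
      exact Measure.integrableOn_of_bounded (by simp)
        (((ad_Sd_meas f (6 * X) δ).norm).pow_const 2).aestronglyMeasurable hb
    have h1 := ad_cs g _ _ hlog hgi.intervalIntegrable hg2
    have hK0 : 0 ≤ ∫ y in (Real.log X)..(Real.log (2 * X)), g y ^ 2 :=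
      intervalIntegral.integral_nonneg hlog.le fun y _ => sq_nonneg _
    have h2 : I ^ 2 ≤ (ε / 4 * h) ^ 2 := by
      calc I ^ 2 ≤ (Real.log (2 * X) - Real.log X) * ∫ y in (Real.log X)..(Real.log (2 * X)), g y ^ 2 := h1
        _ ≤ 1 * (ε ^ 2 / 16 * (h : ℝ) ^ 2) := mul_le_mul hlog2 hw hK0 (by norm_num)
        _ = (ε / 4 * h) ^ 2 := by ring
    exact le_of_sq_le_sq h2 (by positivity)
  -- the sum over the good `n`
  have hgood : ∑ n ∈ Ioc X (2 * X - H), ‖∑ j ∈ range H, f (n + j)‖ ≤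
      ε / 4 * H * X + 8 * h * X := by
    have h1 : δ * ∑ n ∈ Ioc X (2 * X - H), ‖∑ j ∈ range H, f (n + j)‖ ≤
        H * I + X * (δ * (7 * h + 1)) := by
      rw [mul_sum]
      have h2 : ∀ n ∈ Ioc X (2 * X - H), δ * ‖∑ j ∈ range H, f (n + j)‖ ≤
          (∫ y in (Real.log n)..(Real.log ((n + H : ℕ) : ℝ)), g y) + δ * (7 * h + 1) := by
        intro n hn
        rw [mem_Ioc] at hn
        exact ad_point f hf.bd X h H n hX5 hh1 hX2 hn.1 (by omega)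
      refine (sum_le_sum h2).trans ?_
      rw [sum_add_distrib]
      apply add_le_add (ad_cover g hg0 hgi X H hX5 hX4)
      rw [sum_const, nsmul_eq_mul, Nat.card_Ioc]
      apply mul_le_mul_of_nonneg_right _ (by positivity)
      exact_mod_cast (by omega : 2 * X - H - X ≤ X)
    have h3 : H * I + X * (δ * (7 * h + 1)) ≤ δ * (ε / 4 * H * X + 8 * h * X) := by
      have h4 : (1 : ℝ) ≤ h := by exact_mod_cast hh1
      have h5 : δ * X = h := by rw [hδ]; field_simp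
      have h6 : H * I ≤ H * (ε / 4 * h) := mul_le_mul_of_nonneg_left hIle hH0.le
      have h7 : δ * (ε / 4 * H * X + 8 * h * X) = (δ * X) * (ε / 4 * H + 8 * h) := by ring
      have h8 : X * (δ * (7 * h + 1)) = (δ * X) * (7 * h + 1) := by ring
      rw [h7, h8, h5]
      nlinarith
    exact le_of_mul_le_mul_left (h1.trans h3) hδ0
  -- the last `H` values
  have hbad : ∑ n ∈ Ioc (2 * X - H) (2 * X), ‖∑ j ∈ range H, f (n + j)‖ ≤ (H : ℝ) * H := by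
    have h1 : ∀ n ∈ Ioc (2 * X - H) (2 * X), ‖∑ j ∈ range H, f (n + j)‖ ≤ (H : ℝ) := by
      intro n _
      refine (norm_sum_le _ _).trans ?_
      refine (sum_le_sum fun j _ => hf.bd (n + j)).trans ?_
      simp
    refine (sum_le_sum h1).trans ?_
    rw [sum_const, nsmul_eq_mul, Nat.card_Ioc]
    apply mul_le_mul_of_nonneg_right _ hH0.le
    exact_mod_cast (by omega : 2 * X - (2 * X - H) ≤ H)
  have hsplit : ∑ n ∈ Ioc X (2 * X), ‖∑ j ∈ range H, f (n + j)‖ =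
      (∑ n ∈ Ioc X (2 * X - H), ‖∑ j ∈ range H, f (n + j)‖) +
      ∑ n ∈ Ioc (2 * X - H) (2 * X), ‖∑ j ∈ range H, f (n + j)‖ := by
    rw [Finset.sum_Ioc_consecutive _ (by omega) (by omega)]
  rw [hsplit]
  have h1 : 8 * (h : ℝ) * X ≤ ε / 4 * H * X := by
    apply mul_le_mul_of_nonneg_right _ hX0.le
    linarith
  have h2 : (H : ℝ) * H ≤ ε / 4 * H * X := by
    have := mul_le_mul_of_nonneg_left hXH hH0.le
    linarith
  have h3 : 0 ≤ ε * H * X := by positivity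
  linarith

theorem mrtU_log (N : ℕ) (hN : 1 ≤ N) : (Nat.log 2 N) ^ 2 ≤ 4 * N := by
  have h1 : 2 ^ Nat.log 2 N ≤ N := Nat.pow_log_le_self 2 (by omega)
  obtain ⟨l, hl⟩ : ∃ l, l = Nat.log 2 N := ⟨_, rfl⟩
  rw [← hl] at h1 ⊢
  have h2 : l / 2 < 2 ^ (l / 2) := Nat.lt_two_pow_self
  have h3 : l ≤ 2 * 2 ^ (l / 2) := by omega
  have h4 : l ^ 2 ≤ (2 * 2 ^ (l / 2)) ^ 2 := Nat.pow_le_pow_left h3 2
  have h5 : (2 * 2 ^ (l / 2)) ^ 2 = 4 * 2 ^ (2 * (l / 2)) := by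
    rw [mul_pow, ← pow_mul, mul_comm (l / 2) 2]
    norm_num
  have h6 : 2 ^ (2 * (l / 2)) ≤ 2 ^ l := Nat.pow_le_pow_right (by norm_num) (by omega)
  calc l ^ 2 ≤ 4 * 2 ^ (2 * (l / 2)) := by rw [← h5]; exact h4
    _ ≤ 4 * 2 ^ l := Nat.mul_le_mul_left _ h6
    _ ≤ 4 * N := Nat.mul_le_mul_left _ h1

theorem mrtU_dy (g : ℕ → ℝ) (K e : ℝ) (X0 : ℕ) (hK : 0 ≤ K) (he : 0 ≤ e) (hg : ∀ n, g n ≤ K)
    (N : ℕ) (h : ∀ X : ℕ, X0 ≤ X → X ≤ N → ∑ n ∈ Ioc X (2 * X), g n ≤ e * X) :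
    ∑ n ∈ Icc 1 N, g n ≤ K * (2 * X0 + 2) + e * N + K * Nat.log 2 N := by
  induction N using Nat.strong_induction_on with
  | _ N ih =>
    rcases Nat.lt_or_ge N (2 * X0 + 2) with hN | hN
    · have h1 : ∑ n ∈ Icc 1 N, g n ≤ ∑ n ∈ Icc 1 N, K := Finset.sum_le_sum fun n _ => hg n
      rw [Finset.sum_const, Nat.card_Icc, nsmul_eq_mul, Nat.add_sub_cancel] at h1
      have h2 : (N : ℝ) ≤ 2 * X0 + 2 := by exact_mod_cast hN.le
      have h3 : (N : ℝ) * K ≤ (2 * X0 + 2) * K := mul_le_mul_of_nonneg_right h2 hK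
      have h4 : 0 ≤ e * N := by positivity
      have h5 : 0 ≤ K * Nat.log 2 N := by positivity
      linarith
    · obtain ⟨X, hX⟩ : ∃ X, X = N / 2 := ⟨_, rfl⟩
      have hXN : X < N := by omega
      have h1 := ih X hXN (fun X' hX1 hX2 => h X' hX1 (hX2.trans hXN.le))
      have h2 := h X (by omega) (by omega)
      have h3 : ∑ n ∈ Icc 1 N, g n ≤ ∑ n ∈ Icc 1 X, g n + ∑ n ∈ Ioc X (2 * X), g n + K := by
        have e1 : ∑ n ∈ Icc 1 (2 * X), g n = ∑ n ∈ Icc 1 X, g n + ∑ n ∈ Ioc X (2 * X), g n := by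
          rw [← Finset.sum_union]
          · apply Finset.sum_congr _ (fun _ _ => rfl)
            ext n
            simp only [Finset.mem_union, Finset.mem_Icc, Finset.mem_Ioc]
            omega
          · rw [Finset.disjoint_left]
            intro n hn hn'
            rw [Finset.mem_Icc] at hn
            rw [Finset.mem_Ioc] at hn'
            omega
        rcases Nat.even_or_odd' N with ⟨c, hc | hc⟩
        · have e2 : N = 2 * X := by omega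
          rw [← e1, ← e2]
          linarith
        · have e2 : N = 2 * X + 1 := by omega
          rw [← e1, e2, Finset.sum_Icc_succ_top (by omega)]
          have := hg (2 * X + 1)
          linarith
      have h4 : Nat.log 2 N = Nat.log 2 X + 1 := by
        rw [hX, Nat.log_div_base, Nat.sub_add_cancel]
        exact Nat.log_pos (by norm_num) (by omega)
      rw [h4]
      have h5 : (2 : ℝ) * X ≤ N := by
        have : 2 * X ≤ N := by omega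
        exact_mod_cast this
      have h6 : e * (2 * X) ≤ e * N := mul_le_mul_of_nonneg_left h5 he
      push_cast
      linarith


/-- the uniform version at a single scale -/
theorem mrtU (ε : ℝ) (hε : 0 < ε) : ∃ H₀ : ℕ, ∀ H : ℕ, H₀ ≤ H → ∃ (A : ℝ) (N₀ : ℕ), ∀ N : ℕ, N₀ ≤ N → ∀ f : ℕ → ℂ, OB f → UN A N f →
    ∑ n ∈ Icc 1 N, ‖∑ j ∈ range H, f (n + j)‖ ≤ ε * H * N := by
  obtain ⟨e, he⟩ : ∃ e : ℝ, e = min 1 ε / 4 := ⟨_, rfl⟩
  have hm : 0 < min 1 ε := lt_min one_pos hε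
  have he0 : 0 < e := by rw [he]; linarith
  have he1 : e ≤ 1 := by
    have := min_le_left 1 ε
    rw [he]; linarith
  have heε : 4 * e ≤ ε := by
    have := min_le_right 1 ε
    rw [he]; linarith
  obtain ⟨H₀, hH₀⟩ := addU e he0 he1
  refine ⟨H₀, ?_⟩
  intro H hH
  obtain ⟨A', Xa, hXa⟩ := hH₀ H hH
  obtain ⟨N1, hN1⟩ := exists_nat_ge ((8 + 8 * (Xa : ℝ)) / e)
  obtain ⟨N2, hN2⟩ := exists_nat_ge (4 / e ^ 2)
  refine ⟨A' + 8 / e * 2, max (max N1 N2) 1, ?_⟩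
  intro N hNN f hf hN
  have n1 : (N1 : ℝ) ≤ N := by exact_mod_cast le_trans (le_trans (le_max_left _ _) (le_max_left _ _)) hNN
  have n2 : (N2 : ℝ) ≤ N := by exact_mod_cast le_trans (le_trans (le_max_right _ _) (le_max_left _ _)) hNN
  have n3 : 1 ≤ N := le_trans (le_max_right _ _) hNN
  have n3r : (1 : ℝ) ≤ N := by exact_mod_cast n3
  have hg : ∀ n, ‖∑ j ∈ range H, f (n + j)‖ ≤ (H : ℝ) := by
    intro n
    refine (norm_sum_le _ _).trans ?_
    refine (Finset.sum_le_sum fun j _ => hf.bd (n + j)).trans ?_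
    rw [Finset.sum_const, Finset.card_range, nsmul_eq_mul, mul_one]
  obtain ⟨X₀, hX0d⟩ : ∃ X₀ : ℕ, X₀ = ⌊e * N / 4⌋₊ := ⟨_, rfl⟩
  have hNe : 8 + 8 * (Xa : ℝ) ≤ N * e := (div_le_iff₀ he0).1 (hN1.trans n1)
  have hX0a : (X₀ : ℝ) ≤ e * N / 4 := by rw [hX0d]; exact Nat.floor_le (by positivity)
  have hX0b : e * N / 4 < (X₀ : ℝ) + 1 := by rw [hX0d]; exact Nat.lt_floor_add_one _
  have hXa0 : (0 : ℝ) ≤ Xa := Nat.cast_nonneg _
  have hX0c : e * N / 4 ≤ 2 * (X₀ : ℝ) := by nlinarith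
  have hX01 : (1 : ℝ) ≤ X₀ := by nlinarith
  have hX₀ : ∀ X : ℕ, X₀ ≤ X → X ≤ N → ∑ n ∈ Ioc X (2 * X), ‖∑ j ∈ range H, f (n + j)‖ ≤ e * H * X := by
    intro X hX hXN
    have hXr : (X₀ : ℝ) ≤ X := by exact_mod_cast hX
    have hX1 : (1 : ℝ) ≤ X := hX01.trans hXr
    have hX1n : 1 ≤ X := by exact_mod_cast hX1
    have hXXa : Xa ≤ X := by
      have : (Xa : ℝ) ≤ X := by nlinarith
      exact_mod_cast this
    refine hXa X hXXa f hf ?_
    intro t ht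
    have hXNr : (X : ℝ) ≤ N := by exact_mod_cast hXN
    have h1 := hN t (ht.trans hXNr)
    have h2 := DD_drop f hf t hXN hX1n
    have h3 : 2 * (N : ℝ) / X ≤ 8 / e * 2 := by
      rw [div_le_iff₀ (by linarith)]
      have h4 : 8 / e * 2 * (e * N / 8) ≤ 8 / e * 2 * (X : ℝ) := mul_le_mul_of_nonneg_left (by linarith) (by positivity)
      have h5 : 8 / e * 2 * (e * N / 8) = 2 * (N : ℝ) := by field_simp
      linarith
    linarith
  have hdy := mrtU_dy (fun n => ‖∑ j ∈ range H, f (n + j)‖) H (e * H) X₀ (Nat.cast_nonneg _) (by positivity) hg N hX₀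
  refine hdy.trans ?_
  have c1 : 2 * (X₀ : ℝ) + 2 ≤ e * N := by
    linarith
  have c2 : (Nat.log 2 N : ℝ) ≤ e * N := by
    by_contra hc
    push Not at hc
    have h1 : (Nat.log 2 N : ℝ) ^ 2 ≤ 4 * N := by exact_mod_cast mrtU_log N n3
    have h2 : (e * N) ^ 2 < (Nat.log 2 N : ℝ) ^ 2 := pow_lt_pow_left₀ hc (by positivity) (by norm_num)
    have h3 : 4 ≤ N * e ^ 2 := (div_le_iff₀ (by positivity)).1 (hN2.trans n2)
    have h4 : 4 * (N : ℝ) ≤ (N * e ^ 2) * N := mul_le_mul_of_nonneg_right h3 (by linarith)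
    have h5 : (N * e ^ 2) * N = (e * N) ^ 2 := by ring
    linarith
  have hH0 : (0 : ℝ) ≤ H := Nat.cast_nonneg _
  have c3 : (H : ℝ) * (2 * X₀ + 2) ≤ H * (e * N) := mul_le_mul_of_nonneg_left c1 hH0
  have c4 : (H : ℝ) * Nat.log 2 N ≤ H * (e * N) := mul_le_mul_of_nonneg_left c2 hH0
  have c5 : 3 * e * (H * N) ≤ ε * (H * N) := mul_le_mul_of_nonneg_right (by linarith) (by positivity)
  calc (H : ℝ) * (2 * X₀ + 2) + e * H * N + H * Nat.log 2 N ≤ H * (e * N) + e * H * N + H * (e * N) := by linarith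
    _ = 3 * e * (H * N) := by ring
    _ ≤ ε * (H * N) := c5
    _ = ε * H * N := by ring

end Pool.H2.MR
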